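import Pool.Agent.CvT.Pla
import Pool.Agent.CvS.Defs

/-!
# The plane step in the form needed for the induction
-/

set_option autoImplicit false

namespace Pool.Agent.CvT

open Pool.Agent.CvD Pool.Agent.CvS

theorem plane_hyp (H : CurveHyp) : PlaneHyp := by
  intro ι _ R hR
  obtain ⟨N, h1, h2⟩ := plane H hR
  exact ⟨N, fun hp ha => h1 _ _ _ hp ha, fun p _ a => h2 p a⟩

end Pool.Agent.CvT
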