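import Pool.Agent.PRc.Normal

/-!
# Package CvT-Pat: decidable relations are Boolean functions of vanishing of polynomials

Complete proofs.

* `bool_form`: `PRc.normal1` for the characteristic function `F` of `R` gives `T`, `N`, `D`. The finite
  family consists of the `T a` and of the `N P` for all `P : Fin τ → Prop` (finitely many; use an
  equivalence of `Fin τ ⊕ (Fin τ → Prop)` with `Fin σ`). `R` holds if and only if `F ≠ 0`, i.e.
  `aeval x (N P) ≠ 0` for the pattern `P` of `x` (`aeval x (D P) ≠ 0`).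
  So `φ Q` is: `¬ Q (N P)` where `P a = Q (T a)`.
* `coef_one`: induction on the polynomial (`MvPolynomial.induction_on`): constants (`PRF.int`), sums
  (enlarge `D`, `coef_mono`), multiplication with a variable `X (Sum.inl 0)`, `X (Sum.inl 1)` (shift the
  index, `D + 1`), `X (Sum.inr i)` (multiply all coefficients with the variable `i`, `PRF.var`, `PRF.mul`).
* `coef_fam`: the maximum of the degrees.
-/

set_option autoImplicit false

namespace Pool.Agent.CvT

open Pool.Agent.PRc
open scoped Classical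

theorem bool_form {ι : Type} {R : FR ι} (hR : PRD R) :
    ∃ (σ : ℕ) (T : Fin σ → MvPolynomial ι ℤ) (φ : (Fin σ → Prop) → Prop),
      ∀ (k : Type) [Field k] (x : ι → k), R k x ↔ φ (fun a => MvPolynomial.aeval x (T a) = 0) := by
  obtain ⟨τ, T, N, D, H⟩ := normal1 hR
  obtain ⟨σ, ⟨e⟩⟩ := Finite.exists_equiv_fin (Fin τ ⊕ (Fin τ → Prop))
  refine ⟨σ, fun i => Sum.elim T N (e.symm i),
    fun Q => ¬ Q (e (Sum.inr fun a => Q (e (Sum.inl a)))), fun k _ x => ?_⟩
  simp only [Equiv.symm_apply_apply, Sum.elim_inl, Sum.elim_inr]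
  obtain ⟨h1, h2⟩ := H k x
  have h3 : (fun a => MvPolynomial.aeval x (T a) = 0) = ptn T x := rfl
  rw [h3]
  constructor
  · intro hx h4
    have h5 : (if R k x then (1 : k) else 0) = 1 := if_pos hx
    rw [h5, h4, zero_div] at h2
    exact one_ne_zero h2
  · intro h4
    by_contra hx
    have h5 : (if R k x then (1 : k) else 0) = 0 := if_neg hx
    rw [h5] at h2
    exact div_ne_zero h4 h1 h2.symm

/-- `T = ∑ C_(i,j) z_0 ^ i z_1 ^ j` with coefficients `C` depending on the other variables -/
def Cf {ι : Type} (T : MvPolynomial (Fin 2 ⊕ ι) ℤ) (D : ℕ)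
    (C : Fin (D + 1) → Fin (D + 1) → FF ι) : Prop :=
  (∀ i j, PRF (C i j)) ∧ ∀ (k : Type) [Field k] (z : Fin 2 → k) (a : ι → k),
    MvPolynomial.aeval (Sum.elim z a) T = ∑ i, ∑ j, C i j k a * z 0 ^ (i : ℕ) * z 1 ^ (j : ℕ)

private structure Gf_Pat {ι : Type} (T : MvPolynomial (Fin 2 ⊕ ι) ℤ) (D : ℕ) (G : ℕ → ℕ → FF ι) :
    Prop where
  prf : ∀ i j, PRF (G i j)
  van : ∀ i j, D < i ∨ D < j → ∀ (k : Type) [Field k] (a : ι → k), G i j k a = 0
  eq : ∀ (k : Type) [Field k] (z : Fin 2 → k) (a : ι → k),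
    MvPolynomial.aeval (Sum.elim z a) T =
      ∑ i ∈ Finset.range (D + 1), ∑ j ∈ Finset.range (D + 1), G i j k a * z 0 ^ i * z 1 ^ j

private theorem mono_Pat {ι : Type} {T : MvPolynomial (Fin 2 ⊕ ι) ℤ} {D D' : ℕ}
    {G : ℕ → ℕ → FF ι} (h : Gf_Pat T D G) (hD : D ≤ D') : Gf_Pat T D' G where
  prf := h.prf
  van := fun i j hij k _ a => h.van i j (by omega) k a
  eq := fun k _ z a => by
    rw [h.eq k z a]
    have h1 : Finset.range (D + 1) ⊆ Finset.range (D' + 1) := Finset.range_subset_range.2 (by omega)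
    have h2 : ∀ i, ∑ j ∈ Finset.range (D + 1), G i j k a * z 0 ^ i * z 1 ^ j =
        ∑ j ∈ Finset.range (D' + 1), G i j k a * z 0 ^ i * z 1 ^ j := by
      intro i
      refine Finset.sum_subset h1 fun j _ hj => ?_
      rw [Finset.mem_range] at hj
      rw [h.van i j (Or.inr (by omega)) k a, zero_mul, zero_mul]
    simp only [h2]
    refine Finset.sum_subset h1 fun i _ hi => Finset.sum_eq_zero fun j _ => ?_
    rw [Finset.mem_range] at hi
    rw [h.van i j (Or.inl (by omega)) k a, zero_mul, zero_mul]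

private theorem toCf_Pat {ι : Type} {T : MvPolynomial (Fin 2 ⊕ ι) ℤ} {D : ℕ} {G : ℕ → ℕ → FF ι}
    (h : Gf_Pat T D G) : Cf T D fun i j => G i j :=
  ⟨fun i j => h.prf i j, fun k _ z a => by
    rw [h.eq k z a, Finset.sum_range]
    refine Finset.sum_congr rfl fun i _ => ?_
    rw [Finset.sum_range]⟩

private theorem ofCf_Pat {ι : Type} {T : MvPolynomial (Fin 2 ⊕ ι) ℤ} {D : ℕ}
    {C : Fin (D + 1) → Fin (D + 1) → FF ι} (h : Cf T D C) : ∃ G, Gf_Pat T D G := by
  refine ⟨fun i j => if h : i < D + 1 ∧ j < D + 1 then C ⟨i, h.1⟩ ⟨j, h.2⟩ else fun _ _ _ => 0,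
    ⟨fun i j => ?_, fun i j hij k _ a => ?_, fun k _ z a => ?_⟩⟩
  · by_cases h1 : i < D + 1 ∧ j < D + 1
    · rw [dif_pos h1]
      exact h.1 _ _
    · rw [dif_neg h1]
      exact PRF.zero
  · rw [dif_neg (by omega)]
  · rw [h.2 k z a, Finset.sum_range]
    refine Finset.sum_congr rfl fun i _ => ?_
    rw [Finset.sum_range]
    refine Finset.sum_congr rfl fun j _ => ?_
    rw [dif_pos ⟨i.2, j.2⟩]

theorem coef_mono {ι : Type} {T : MvPolynomial (Fin 2 ⊕ ι) ℤ} {D D' : ℕ}
    {C : Fin (D + 1) → Fin (D + 1) → FF ι} (h : Cf T D C) (hD : D ≤ D') :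
    ∃ C', Cf T D' C' := by
  obtain ⟨G, hG⟩ := ofCf_Pat h
  exact ⟨_, toCf_Pat (mono_Pat hG hD)⟩

private theorem one_Pat {ι : Type} (T : MvPolynomial (Fin 2 ⊕ ι) ℤ) : ∃ D G, Gf_Pat T D G := by
  induction T using MvPolynomial.induction_on with
  | C c =>
    refine ⟨0, fun i j => if i = 0 ∧ j = 0 then fun _ _ _ => (c : _) else fun _ _ _ => 0,
      ⟨fun i j => ?_, fun i j hij k _ a => ?_, fun k _ z a => ?_⟩⟩
    · by_cases h1 : i = 0 ∧ j = 0
      · rw [if_pos h1]
        exact PRF.int c
      · rw [if_neg h1]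
        exact PRF.zero
    · rw [if_neg (by omega)]
    · simp
  | add p q hp hq =>
    obtain ⟨D, G, hG⟩ := hp
    obtain ⟨D', G', hG'⟩ := hq
    have h1 := mono_Pat hG (le_max_left D D')
    have h2 := mono_Pat hG' (le_max_right D D')
    refine ⟨max D D', fun i j k _ a => G i j k a + G' i j k a,
      ⟨fun i j => (h1.prf i j).add (h2.prf i j), fun i j hij k _ a => ?_, fun k _ z a => ?_⟩⟩
    · rw [h1.van i j hij k a, h2.van i j hij k a, add_zero]
    · rw [map_add, h1.eq k z a, h2.eq k z a, ← Finset.sum_add_distrib]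
      refine Finset.sum_congr rfl fun i _ => ?_
      rw [← Finset.sum_add_distrib]
      refine Finset.sum_congr rfl fun j _ => ?_
      ring
  | mul_X p n hp =>
    obtain ⟨D, G, hG⟩ := hp
    rcases n with n | n
    · have h1 := mono_Pat hG (Nat.le_succ D)
      by_cases hn : n = 0
      · subst hn
        refine ⟨D + 1, fun i j => if i = 0 then fun _ _ _ => 0 else G (i - 1) j,
          ⟨fun i j => ?_, fun i j hij k _ a => ?_, fun k _ z a => ?_⟩⟩
        · by_cases h2 : i = 0
          · rw [if_pos h2]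
            exact PRF.zero
          · rw [if_neg h2]
            exact hG.prf _ _
        · by_cases h2 : i = 0
          · rw [if_pos h2]
          · rw [if_neg h2]
            exact hG.van _ _ (by omega) k a
        · rw [map_mul, h1.eq k z a, MvPolynomial.aeval_X, Sum.elim_inl, Finset.sum_mul,
            Finset.sum_range_succ, Finset.sum_range_succ' (fun i =>
              ∑ j ∈ Finset.range (D + 1 + 1), (if i = 0 then fun _ _ _ => 0 else G (i - 1) j :
                FF ι) k a * z 0 ^ i * z 1 ^ j)]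
          congr 1
          · refine Finset.sum_congr rfl fun i _ => ?_
            rw [Finset.sum_mul]
            refine Finset.sum_congr rfl fun j _ => ?_
            rw [if_neg (Nat.succ_ne_zero i), Nat.add_sub_cancel]
            ring
          · rw [Finset.sum_mul]
            refine Finset.sum_congr rfl fun j _ => ?_
            rw [if_pos rfl, hG.van _ _ (Or.inl (Nat.lt_succ_self D)) k a]
            ring
      · have hn1 : n = 1 := by omega
        subst hn1
        refine ⟨D + 1, fun i j => if j = 0 then fun _ _ _ => 0 else G i (j - 1),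
          ⟨fun i j => ?_, fun i j hij k _ a => ?_, fun k _ z a => ?_⟩⟩
        · by_cases h2 : j = 0
          · rw [if_pos h2]
            exact PRF.zero
          · rw [if_neg h2]
            exact hG.prf _ _
        · by_cases h2 : j = 0
          · rw [if_pos h2]
          · rw [if_neg h2]
            exact hG.van _ _ (by omega) k a
        · rw [map_mul, h1.eq k z a, MvPolynomial.aeval_X, Sum.elim_inl, Finset.sum_mul]
          refine Finset.sum_congr rfl fun i _ => ?_
          rw [Finset.sum_mul, Finset.sum_range_succ, Finset.sum_range_succ' (fun j =>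
              (if j = 0 then fun _ _ _ => 0 else G i (j - 1) : FF ι) k a * z 0 ^ i * z 1 ^ j)]
          congr 1
          · refine Finset.sum_congr rfl fun j _ => ?_
            rw [if_neg (Nat.succ_ne_zero j), Nat.add_sub_cancel]
            ring
          · rw [if_pos rfl, hG.van _ _ (Or.inr (Nat.lt_succ_self D)) k a]
            ring
    · refine ⟨D, fun i j k _ a => G i j k a * a n, ⟨fun i j => (hG.prf i j).mul (PRF.var n),
        fun i j hij k _ a => ?_, fun k _ z a => ?_⟩⟩
      · rw [hG.van i j hij k a, zero_mul]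
      · rw [map_mul, hG.eq k z a, MvPolynomial.aeval_X, Sum.elim_inr, Finset.sum_mul]
        refine Finset.sum_congr rfl fun i _ => ?_
        rw [Finset.sum_mul]
        refine Finset.sum_congr rfl fun j _ => ?_
        ring

theorem coef_one {ι : Type} (T : MvPolynomial (Fin 2 ⊕ ι) ℤ) : ∃ D C, Cf T D C := by
  obtain ⟨D, G, hG⟩ := one_Pat T
  exact ⟨D, _, toCf_Pat hG⟩

theorem coef_fam {ι : Type} {s : ℕ} (T : Fin s → MvPolynomial (Fin 2 ⊕ ι) ℤ) :
    ∃ (D : ℕ) (C : Fin s → Fin (D + 1) → Fin (D + 1) → FF ι), ∀ l, Cf (T l) D (C l) := by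
  choose D C hC using fun l => coef_one (T l)
  choose C' hC' using fun l =>
    coef_mono (hC l) (Finset.le_sup (f := D) (Finset.mem_univ l))
  exact ⟨Finset.univ.sup D, C', hC'⟩

end Pool.Agent.CvT
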