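import Pool.Agent.CvD.Defs

/-!
# Systems of equations in two unknowns, and nonsingular solutions: definitions

ALL CURVES (`MP_a56640_lc`), consequences.

* `vf c x y = ∑ c_(i,j) x ^ i y ^ j`, `vx`, `vy`: the values of the partial derivatives;
  `cx`, `cy`: their coefficients;
* `SN m c`: the number of the common solutions modulo `m` of the equations `vf (c l) x y = 0`;
* `NS m c`: the number of the solutions of `vf c x y = 0` modulo `m` which are nonsingular modulo every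
  prime divisor of `m`.
-/

set_option autoImplicit false

noncomputable section

namespace Pool.Agent.CvT

open Finset Polynomial
open scoped Polynomial.Bivariate

/-- the value -/
def vf {D : ℕ} (c : Fin (D + 1) → Fin (D + 1) → ℕ) (x y : ℕ) : ℕ :=
  ∑ i, ∑ j, c i j * x ^ (i : ℕ) * y ^ (j : ℕ)

/-- the value of the partial derivative with respect to `x` -/
def vx {D : ℕ} (c : Fin (D + 1) → Fin (D + 1) → ℕ) (x y : ℕ) : ℕ :=
  ∑ i : Fin (D + 1), ∑ j : Fin (D + 1), (i : ℕ) * c i j * x ^ ((i : ℕ) - 1) * y ^ (j : ℕ)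

/-- the value of the partial derivative with respect to `y` -/
def vy {D : ℕ} (c : Fin (D + 1) → Fin (D + 1) → ℕ) (x y : ℕ) : ℕ :=
  ∑ i : Fin (D + 1), ∑ j : Fin (D + 1), (j : ℕ) * c i j * x ^ (i : ℕ) * y ^ ((j : ℕ) - 1)

/-- the coefficients of the partial derivative with respect to `x` -/
def cx {D : ℕ} (c : Fin (D + 1) → Fin (D + 1) → ℕ) (i j : Fin (D + 1)) : ℕ :=
  ((i : ℕ) + 1) * if h : (i : ℕ) + 1 < D + 1 then c ⟨(i : ℕ) + 1, h⟩ j else 0

/-- the coefficients of the partial derivative with respect to `y` -/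
def cy {D : ℕ} (c : Fin (D + 1) → Fin (D + 1) → ℕ) (i j : Fin (D + 1)) : ℕ :=
  ((j : ℕ) + 1) * if h : (j : ℕ) + 1 < D + 1 then c i ⟨(j : ℕ) + 1, h⟩ else 0

/-- the number of the common solutions modulo `m` -/
def SN (m : ℕ) {s D : ℕ} (c : Fin s → Fin (D + 1) → Fin (D + 1) → ℕ) : ℕ :=
  #{z ∈ range m ×ˢ range m | ∀ l, m ∣ ∑ i, ∑ j, c l i j * z.1 ^ (i : ℕ) * z.2 ^ (j : ℕ)}

open scoped Classical in
/-- the number of the solutions modulo `m` that are nonsingular modulo all prime divisors of `m` -/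
def NS (m : ℕ) {D : ℕ} (c : Fin (D + 1) → Fin (D + 1) → ℕ) : ℕ :=
  #{z ∈ range m ×ˢ range m | m ∣ vf c z.1 z.2 ∧
    ∀ p, p.Prime → p ∣ m → ¬ (p ∣ vx c z.1 z.2 ∧ p ∣ vy c z.1 z.2)}

end Pool.Agent.CvT
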