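import Pool.Agent.CvT.SysP
import Pool.Agent.CvD.Rec

/-!
# Package CvT-SysD: the numbers of the common solutions are definable

Complete proofs.

* `gcd_prq`: the relation in the arrays `g`, `c'`, `c`: all `G C'_l = C_l` and no nonunit divides all
  `C'_l`: first-order (`PRc.PRQ`): `CvD.mul_prd`, `CvD.nu_prd`; the last condition: there are no `u`, `w_l` with
  `bq u` a nonunit and `bq u * bq (w_l) = C'_l` for all `l` (if not all `C'_l` are `0`, divisors have `Bd D`:
  `CvD.bd_left`; if all are `0`, `0` divides all of them).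
* `sn_eq`: if `C_l = G C'_l` modulo the prime `p`, then the common zeros of the `C_l` are the zeros of `G`
  and the common zeros of the `C'_l` that are not zeros of `G`.
* `sn_prime`: all `c_l = 0` modulo `p`: `p ^ 2`. Otherwise by `sys_gcd` there are arrays `g`, `c'` of
  numbers `< p` as in `gcd_prq` (`Delta0.bexVec`), and `SN p c = CN p g + min B (…)` by `sn_eq` and `sys_few`
  (`CvD.cn_prime`, `CvD.cnt_pairs`, `DFun.ofGraph` with the bound `p ^ 2`; compare `CvD.rec_def`).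
* `sn_sqf`: as `CvD.cn_sqf`: `PtC.crt_sqf`, `PtC.dfun_prodPF`.
-/

set_option autoImplicit false

namespace Pool.Agent.CvT

open Finset Polynomial Pool.Agent.Grz Pool.Agent.GAvg Pool.Agent.PTr Pool.Agent.MTr
  Pool.Agent.LPC Pool.Agent.ECD Pool.Agent.CvD
open scoped Classical

/-! ### Values -/

private theorem ev_SysD {D p : ℕ} (c : Fin (D + 1) → Fin (D + 1) → ℕ) (x y : ℕ) :
    (bp (ZMod p) c).evalEval (x : ZMod p) (y : ZMod p) = ((vf c x y : ℕ) : ZMod p) := by
  unfold bp vf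
  rw [bq_eval]
  push_cast
  rfl

private theorem dvd_SysD {D p : ℕ} (c : Fin (D + 1) → Fin (D + 1) → ℕ) (x y : ℕ) :
    p ∣ vf c x y ↔ (bp (ZMod p) c).evalEval (x : ZMod p) (y : ZMod p) = 0 := by
  rw [ev_SysD, ZMod.natCast_eq_zero_iff]

private theorem card_SysD (m : ℕ) (P : ℕ × ℕ → Prop) [DecidablePred P] :
    #{z ∈ range m ×ˢ range m | P z} ≤ m ^ 2 := by
  refine (Finset.card_filter_le _ _).trans ?_
  rw [Finset.card_product, Finset.card_range, pow_two]

private theorem sn_le_SysD {s D m : ℕ} (c : Fin s → Fin (D + 1) → Fin (D + 1) → ℕ) :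
    SN m c ≤ m ^ 2 := by
  unfold SN
  exact card_SysD _ _

private theorem sn_zero_SysD {s D p : ℕ} {c : Fin s → Fin (D + 1) → Fin (D + 1) → ℕ}
    (h : ∀ l i j, p ∣ c l i j) : SN p c = p ^ 2 := by
  unfold SN
  rw [filter_true_of_mem, card_product, card_range, pow_two]
  intro z _ l
  refine Finset.dvd_sum fun i _ => Finset.dvd_sum fun j _ => ?_
  exact Dvd.dvd.mul_right (Dvd.dvd.mul_right (h l i j) _) _

theorem sn_eq {s D p : ℕ} (hp : p.Prime) {c c' : Fin s → Fin (D + 1) → Fin (D + 1) → ℕ}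
    {g : Fin (D + 1) → Fin (D + 1) → ℕ}
    (hc : ∀ l, bp (ZMod p) g * bp (ZMod p) (c' l) = bp (ZMod p) (c l)) :
    SN p c = CN p g + #{z ∈ range p ×ˢ range p | (∀ l, p ∣ vf (c' l) z.1 z.2) ∧
      ¬ p ∣ vf g z.1 z.2} := by
  have := Fact.mk hp
  have h1 : ∀ (l : Fin s) (x y : ℕ), p ∣ vf (c l) x y ↔ p ∣ vf g x y ∨ p ∣ vf (c' l) x y := by
    intro l x y
    rw [dvd_SysD, dvd_SysD, dvd_SysD, ← hc l, evalEval_mul, mul_eq_zero]
  have h2 : SN p c = #{z ∈ range p ×ˢ range p | ∀ l, p ∣ vf (c l) z.1 z.2} := by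
    unfold SN vf
    congr
  have h3 : CN p g = #{z ∈ range p ×ˢ range p | p ∣ vf g z.1 z.2} := by
    unfold CN vf
    congr
  rw [h2, h3, ← Finset.card_filter_add_card_filter_not
    (s := {z ∈ range p ×ˢ range p | ∀ l, p ∣ vf (c l) z.1 z.2})
    (fun z : ℕ × ℕ => p ∣ vf g z.1 z.2), Finset.filter_filter, Finset.filter_filter]
  refine congrArg₂ (· + ·) (congrArg Finset.card (Finset.filter_congr fun z _ => ?_))
    (congrArg Finset.card (Finset.filter_congr fun z _ => ?_))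
  · constructor
    · exact fun h => h.2
    · exact fun h => ⟨fun l => (h1 l _ _).2 (Or.inl h), h⟩
  · constructor
    · exact fun h => ⟨fun l => ((h1 l _ _).1 (h.1 l)).resolve_left h.2, h.2⟩
    · exact fun h => ⟨fun l => (h1 l _ _).2 (Or.inr (h.1 l)), h.2⟩

section aux

open Pool.Agent.PRc
open scoped Polynomial.Bivariate

/-! ### The relation -/

private theorem bp_zero_SysD {D p : ℕ} {c : Fin (D + 1) → Fin (D + 1) → ℕ}
    (h : bp (ZMod p) c = 0) (i j : Fin (D + 1)) : p ∣ c i j := by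
  have h2 : bq (K := ZMod p) (D := D) (fun _ => 0) = 0 := by
    unfold bq
    simp
  have h3 := congrFun (bq_inj (h.trans h2.symm)) (i, j)
  exact (ZMod.natCast_eq_zero_iff _ _).1 h3

private theorem nc_iff_SysD {K : Type} [Field K] {s D : ℕ} (x : Fin s × Ix D → K) :
    (∀ G : K[X][Y], (∀ l, G ∣ bq (fun i => x (l, i))) → IsUnit G) ↔
      (¬ ∀ i, x i = 0) ∧ ¬ ∃ z : Ix D ⊕ (Fin s × Ix D) → K,
        (¬ IsUnit (bq (fun i => z (Sum.inl i)))) ∧ ∀ l : Fin s,
          bq (fun i => z (Sum.inl i)) * bq (fun i => z (Sum.inr (l, i))) =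
            bq (fun i => x (l, i)) := by
  have h0 : bq (K := K) (D := D) (fun _ => 0) = 0 := by
    unfold bq
    simp
  constructor
  · intro h
    constructor
    · intro h1
      have h2 : IsUnit (X : K[X][Y]) := h X fun l => by
        have h3 : (fun i => x (l, i)) = fun _ : Ix D => (0 : K) := funext fun i => h1 _
        rw [h3, h0]
        exact dvd_zero _
      exact not_isUnit_X h2
    · rintro ⟨z, h1, h2⟩
      exact h1 (h _ fun l => ⟨_, (h2 l).symm⟩)
  · rintro ⟨h1, h2⟩ G hG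
    by_contra hu
    obtain ⟨l₀, hl₀⟩ : ∃ l₀ : Fin s, bq (fun i => x (l₀, i)) ≠ 0 := by
      by_contra hcon
      push Not at hcon
      refine h1 fun i => ?_
      exact congrFun (bq_inj ((hcon i.1).trans h0.symm)) i.2
    have hGD : Bd D G := by
      obtain ⟨H, hH⟩ := hG l₀
      exact bd_left hH.symm hl₀ (bq_bd _)
    obtain ⟨u, rfl⟩ := bq_surj hGD
    have h3 : ∀ l : Fin s, ∃ w : Ix D → K, bq u * bq w = bq (fun i => x (l, i)) := by
      intro l
      by_cases hl : bq (fun i => x (l, i)) = 0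
      · exact ⟨fun _ => 0, by rw [h0, mul_zero, hl]⟩
      · obtain ⟨H, hH⟩ := hG l
        obtain ⟨w, rfl⟩ := bq_surj (bd_left (G := H) (H := bq u) (by rw [mul_comm, ← hH]) hl
          (bq_bd _))
        exact ⟨w, hH.symm⟩
    choose w hw using h3
    exact h2 ⟨Sum.elim u (fun i => w i.1 i.2), hu, hw⟩

private theorem ml_prd_SysD {ι : Type} {D : ℕ} (a b c : Ix D → ι) :
    PRD (ι := ι) (fun _ _ x => bq (fun i => x (a i)) * bq (fun i => x (b i)) =
      bq (fun i => x (c i))) :=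
  PRD.comp (mul_prd D) (G := Sum.elim (fun i => fun k _ (x : ι → k) => x (a i))
    (Sum.elim (fun i => fun k _ (x : ι → k) => x (b i))
      (fun i => fun k _ (x : ι → k) => x (c i)))) (by
    rintro (i | i | i)
    · exact PRF.var (a i)
    · exact PRF.var (b i)
    · exact PRF.var (c i))

private theorem nc_prq_SysD (s D : ℕ) : PRQ (ι := Fin s × Ix D) (fun k _ x =>
    ∀ G : k[X][Y], (∀ l, G ∣ bq (fun i => x (l, i))) → IsUnit G) := by
  have h0 : PRQ (ι := Fin s × Ix D) (fun k _ x => ∀ i, x i = 0) :=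
    PRQ.allF fun i => PRQ.eq (PRF.var i) PRF.zero
  have h1 : PRQ (ι := (Fin s × Ix D) ⊕ (Ix D ⊕ (Fin s × Ix D))) (fun k _ x =>
      (¬ IsUnit (bq (fun i => x (Sum.inr (Sum.inl i))))) ∧ ∀ l : Fin s,
        bq (fun i => x (Sum.inr (Sum.inl i))) * bq (fun i => x (Sum.inr (Sum.inr (l, i)))) =
          bq (fun i => x (Sum.inl (l, i)))) := by
    refine PRQ.and (PRQ.base ?_) (PRQ.allF fun l => PRQ.base ?_)
    · exact PRD.comp (nu_prd D) (G := fun i => fun k _
        (x : (Fin s × Ix D) ⊕ (Ix D ⊕ (Fin s × Ix D)) → k) => x (Sum.inr (Sum.inl i)))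
        fun i => PRF.var (Sum.inr (Sum.inl i))
    · exact ml_prd_SysD (ι := (Fin s × Ix D) ⊕ (Ix D ⊕ (Fin s × Ix D)))
        (fun i => Sum.inr (Sum.inl i)) (fun i => Sum.inr (Sum.inr (l, i)))
        (fun i => Sum.inl (l, i))
  exact (h0.not.and h1.ex.not).congr fun k _ x => (nc_iff_SysD x).symm

/-- all `G C'_l = C_l` and no nonunit divides all `C'_l` -/
private def Cf_SysD (s D : ℕ) : FR (Ix D ⊕ (Fin s × Ix D) ⊕ (Fin s × Ix D)) := fun k _ x =>
  (∀ l : Fin s, bq (fun i => x (Sum.inl i)) * bq (fun i => x (Sum.inr (Sum.inl (l, i)))) =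
    bq (fun i => x (Sum.inr (Sum.inr (l, i))))) ∧
  ∀ G : k[X][Y], (∀ l : Fin s, G ∣ bq (fun i => x (Sum.inr (Sum.inl (l, i))))) → IsUnit G

private theorem cf_prq_SysD (s D : ℕ) : PRQ (Cf_SysD s D) := by
  refine PRQ.and (PRQ.allF fun l => PRQ.base ?_) ?_
  · exact ml_prd_SysD (ι := Ix D ⊕ (Fin s × Ix D) ⊕ (Fin s × Ix D)) (fun i => Sum.inl i)
      (fun i => Sum.inr (Sum.inl (l, i))) (fun i => Sum.inr (Sum.inr (l, i)))
  · exact PRQ.comp (nc_prq_SysD s D) (G := fun i => fun k _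
      (x : Ix D ⊕ (Fin s × Ix D) ⊕ (Fin s × Ix D) → k) => x (Sum.inr (Sum.inl i)))
      fun i => PRF.var (Sum.inr (Sum.inl i))

/-- the relation of `gcd_prq` modulo the prime `p` -/
private def Cm_SysD (p : ℕ) {s D : ℕ} (g : Fin (D + 1) → Fin (D + 1) → ℕ)
    (c' c : Fin s → Fin (D + 1) → Fin (D + 1) → ℕ) : Prop :=
  ∃ _ : p.Prime, (∀ l, bp (ZMod p) g * bp (ZMod p) (c' l) = bp (ZMod p) (c l)) ∧
    ∀ G : (ZMod p)[X][Y], (∀ l, G ∣ bp (ZMod p) (c' l)) → IsUnit G

private theorem cm_def_SysD {s D n : ℕ} {p : (Fin n → ℕ) → ℕ}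
    {g : Fin (D + 1) → Fin (D + 1) → (Fin n → ℕ) → ℕ}
    {c' c : Fin s → Fin (D + 1) → Fin (D + 1) → (Fin n → ℕ) → ℕ} (hp : DFun n p)
    (hg : ∀ i j, DFun n (g i j)) (hc' : ∀ l i j, DFun n (c' l i j))
    (hc : ∀ l i j, DFun n (c l i j)) :
    Delta0 n (fun v => Cm_SysD (p v) (fun i j => g i j v) (fun l i j => c' l i j v)
      (fun l i j => c l i j v)) := by
  refine (prq_delta (cf_prq_SysD s D) hp (a := Sum.elim (fun i v => g i.1 i.2 v)
    (Sum.elim (fun i v => c' i.1 i.2.1 i.2.2 v) (fun i v => c i.1 i.2.1 i.2.2 v))) ?_).of_iff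
    fun v => ?_
  · rintro (i | i | i)
    · exact hg _ _
    · exact hc' _ _ _
    · exact hc _ _ _
  · exact Iff.rfl

/-- not all polynomials are `0` modulo the prime `p` -/
private def Cs_SysD (p : ℕ) {s D : ℕ} (c : Fin s → Fin (D + 1) → Fin (D + 1) → ℕ) : Prop :=
  p.Prime ∧ ¬ ∀ l i j, p ∣ c l i j

private theorem cs_def_SysD {s D n : ℕ} {p : (Fin n → ℕ) → ℕ}
    {c : Fin s → Fin (D + 1) → Fin (D + 1) → (Fin n → ℕ) → ℕ} (hp : DFun n p)
    (hc : ∀ l i j, DFun n (c l i j)) :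
    Delta0 n (fun v => Cs_SysD (p v) (fun l i j => c l i j v)) :=
  (delta_prime hp).and (Delta0.allOf fun l => Delta0.allOf fun i => Delta0.allOf fun j =>
    delta_dvd hp (hc l i j)).not

private theorem arr_SysD {D p : ℕ} (hp : p.Prime) {F : (ZMod p)[X][Y]} (hF : Bd D F) :
    ∃ g : Fin (D + 1) → Fin (D + 1) → ℕ, (∀ i j, g i j ≤ p) ∧ bp (ZMod p) g = F := by
  have := Fact.mk hp
  obtain ⟨x, hx⟩ := bq_surj hF
  refine ⟨fun i j => (x (i, j)).val, fun i j => (ZMod.val_lt _).le, ?_⟩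
  rw [← hx]
  unfold bp
  congr 1
  funext i
  exact ZMod.natCast_zmod_val _

private theorem gcd_SysD {s D p : ℕ} {c : Fin s → Fin (D + 1) → Fin (D + 1) → ℕ}
    (h : Cs_SysD p c) : ∃ (g : Fin (D + 1) → Fin (D + 1) → ℕ)
      (c' : Fin s → Fin (D + 1) → Fin (D + 1) → ℕ), (∀ i j, g i j ≤ p) ∧
      (∀ l i j, c' l i j ≤ p) ∧ Cm_SysD p g c' c := by
  obtain ⟨hp, h1⟩ := h
  have := Fact.mk hp
  have h2 : ∃ l, bp (ZMod p) (c l) ≠ 0 := by
    by_contra hcon
    push Not at hcon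
    exact h1 fun l i j => bp_zero_SysD (hcon l) i j
  obtain ⟨G, F', hG, hF', hGF, hun⟩ := sys_gcd (F := fun l => bp (ZMod p) (c l))
    (fun l => bq_bd _) h2
  obtain ⟨g, hg, rfl⟩ := arr_SysD hp hG
  choose c' hc' hc'' using fun l => arr_SysD hp (hF' l)
  refine ⟨g, c', hg, hc', hp, fun l => ?_, fun G' hG' => hun G' fun l => ?_⟩
  · rw [hc'' l]
    exact hGF l
  · rw [← hc'' l]
    exact hG' l

/-- few common zeros -/
private theorem few_SysD {s D B p : ℕ} (hp : p.Prime)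
    (hB : ∀ (K : Type) [Field K] (F : Fin s → K[X][Y]),
      (∀ l, Bd D (F l)) → (∀ G : K[X][Y], (∀ l, G ∣ F l) → IsUnit G) → ∀ S : Finset (K × K),
        (∀ z ∈ S, ∀ l, (F l).evalEval z.1 z.2 = 0) → #S ≤ B)
    {g : Fin (D + 1) → Fin (D + 1) → ℕ} {c' : Fin s → Fin (D + 1) → Fin (D + 1) → ℕ}
    (hc : ∀ G : (ZMod p)[X][Y], (∀ l, G ∣ bp (ZMod p) (c' l)) → IsUnit G) :
    #{z ∈ range p ×ˢ range p | (∀ l, p ∣ vf (c' l) z.1 z.2) ∧ ¬ p ∣ vf g z.1 z.2} ≤ B := by
  have := Fact.mk hp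
  have h1 := hB (ZMod p) (fun l => bp (ZMod p) (c' l)) (fun l => bq_bd _) hc
    ({z ∈ range p ×ˢ range p | (∀ l, p ∣ vf (c' l) z.1 z.2) ∧ ¬ p ∣ vf g z.1 z.2}.image
      fun z : ℕ × ℕ => ((z.1 : ZMod p), (z.2 : ZMod p))) ?_
  · rwa [card_image_of_injOn] at h1
    intro z hz w hw hzw
    rw [mem_coe, mem_filter, mem_product, mem_range, mem_range] at hz hw
    have h2 := congrArg (fun t : ZMod p × ZMod p => t.1.val) hzw
    have h3 := congrArg (fun t : ZMod p × ZMod p => t.2.val) hzw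
    simp only [ZMod.val_natCast] at h2 h3
    rw [Nat.mod_eq_of_lt hz.1.1, Nat.mod_eq_of_lt hw.1.1] at h2
    rw [Nat.mod_eq_of_lt hz.1.2, Nat.mod_eq_of_lt hw.1.2] at h3
    exact Prod.ext h2 h3
  · intro z hz l
    rw [mem_image] at hz
    obtain ⟨w, hw, rfl⟩ := hz
    rw [mem_filter] at hw
    exact (dvd_SysD _ _ _).1 (hw.2.1 l)

private theorem vf_def_SysD {D n : ℕ} {x y : (Fin n → ℕ) → ℕ}
    {c : Fin (D + 1) → Fin (D + 1) → (Fin n → ℕ) → ℕ} (hx : DFun n x) (hy : DFun n y)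
    (hc : ∀ i j, DFun n (c i j)) : DFun n (fun v => vf (fun i j => c i j v) (x v) (y v)) :=
  val_def hx hy hc

private theorem common_def_SysD (B : ℕ) {s D n : ℕ} {p : (Fin n → ℕ) → ℕ}
    {g : Fin (D + 1) → Fin (D + 1) → (Fin n → ℕ) → ℕ}
    {c' : Fin s → Fin (D + 1) → Fin (D + 1) → (Fin n → ℕ) → ℕ} (hp : DFun n p)
    (hg : ∀ i j, DFun n (g i j)) (hc' : ∀ l i j, DFun n (c' l i j)) :
    DFun n (fun v => min B #{z ∈ range (p v) ×ˢ range (p v) |
      (∀ l, p v ∣ vf (fun i j => c' l i j v) z.1 z.2) ∧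
        ¬ p v ∣ vf (fun i j => g i j v) z.1 z.2}) := by
  have h1 : Delta0 (n + 2) (fun w => (∀ l : Fin s,
      p (fun i => w i.succ.succ) ∣ vf (fun i j => c' l i j fun i => w i.succ.succ) (w 0) (w 1)) ∧
      ¬ p (fun i => w i.succ.succ) ∣ vf (fun i j => g i j fun i => w i.succ.succ) (w 0) (w 1)) :=
    (Delta0.allOf fun l => delta_dvd hp.weak.weak (vf_def_SysD (DFun.proj 0) (DFun.proj 1)
      fun i j => (hc' l i j).weak.weak)).and (delta_dvd hp.weak.weak
        (vf_def_SysD (DFun.proj 0) (DFun.proj 1) fun i j => (hg i j).weak.weak)).not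
  refine ECD.dfun_congr (cnt_pairs (A := fun a b v =>
    (∀ l, p v ∣ vf (fun i j => c' l i j v) a b) ∧
      ¬ p v ∣ vf (fun i j => g i j v) a b) B hp h1) fun v => ?_
  refine congrArg (min B) (congrArg Finset.card ?_)
  ext z
  simp only [Finset.mem_filter]

/-- definition of a function by a choice of auxiliary numbers -/
private theorem choose_SysD {κ : Type} [Fintype κ] {n : ℕ} {f b B : (Fin n → ℕ) → ℕ}
    {C : (κ → ℕ) → (Fin n → ℕ) → Prop} {g : (κ → ℕ) → (Fin n → ℕ) → ℕ} (hB : DFun n B)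
    (hfB : ∀ v, f v ≤ B v) (hb : DFun n b)
    (hC : ∀ (m : ℕ) (x : κ → (Fin m → ℕ) → ℕ) (v : Fin n → (Fin m → ℕ) → ℕ),
      (∀ k, DFun m (x k)) → (∀ i, DFun m (v i)) →
        Delta0 m (fun w => C (fun k => x k w) (fun i => v i w)))
    (hg : ∀ (m : ℕ) (x : κ → (Fin m → ℕ) → ℕ) (v : Fin n → (Fin m → ℕ) → ℕ),
      (∀ k, DFun m (x k)) → (∀ i, DFun m (v i)) →
        DFun m (fun w => g (fun k => x k w) (fun i => v i w)))
    (hex : ∀ v, ∃ x, (∀ k, x k ≤ b v) ∧ C x v)
    (heq : ∀ v x, (∀ k, x k ≤ b v) → C x v → f v = g x v) : DFun n f := by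
  refine DFun.ofGraph hB hfB ?_
  have h1 := Delta0.bexState (κ := κ) (n := n + 1) (b := fun w => b fun i => w i.succ) hb.weak
    (P := fun x w => C x (fun i => w i.succ) ∧ w 0 = g x fun i => w i.succ) (by
      intro m x v hx hv
      exact (hC m x (fun i => v i.succ) hx fun i => hv _).and
        (Delta0.eqFun (hv 0) (hg m x (fun i => v i.succ) hx fun i => hv _)))
  refine h1.of_iff fun w => ?_
  constructor
  · intro h
    obtain ⟨x, hx, hc⟩ := hex fun i => w i.succ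
    exact ⟨x, hx, hc, h.trans (heq _ x hx hc)⟩
  · rintro ⟨x, hx, hc, h⟩
    exact h.trans (heq _ x hx hc).symm

end aux

theorem sn_prime (H : CurveHyp) {s D n : ℕ} {p : (Fin n → ℕ) → ℕ}
    {c : Fin s → Fin (D + 1) → Fin (D + 1) → (Fin n → ℕ) → ℕ} (hp : DFun n p)
    (hc : ∀ l i j, DFun n (c l i j)) :
    DFun n (fun v => if (p v).Prime then SN (p v) (fun l i j => c l i j v) else 0) := by
  obtain ⟨B, hB⟩ := sys_few s D
  refine choose_SysD (κ := Ix D ⊕ (Fin s × Ix D)) (B := fun v => p v ^ 2) (b := p)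
    (C := fun x v => Cs_SysD (p v) (fun l i j => c l i j v) →
      Cm_SysD (p v) (fun i j => x (Sum.inl (i, j))) (fun l i j => x (Sum.inr (l, i, j)))
        (fun l i j => c l i j v))
    (g := fun x v => if Cs_SysD (p v) (fun l i j => c l i j v) then
      (if (p v).Prime then CN (p v) (fun i j => x (Sum.inl (i, j))) else 0) +
        min B #{z ∈ range (p v) ×ˢ range (p v) |
          (∀ l : Fin s, p v ∣ vf (fun i j : Fin (D + 1) => x (Sum.inr (l, i, j))) z.1 z.2) ∧
            ¬ p v ∣ vf (fun i j : Fin (D + 1) => x (Sum.inl (i, j))) z.1 z.2} else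
      (if (p v).Prime then p v ^ 2 else 0))
    (DFun.powConst hp 2) ?_ hp ?_ ?_ ?_ ?_
  · intro v
    split_ifs
    · exact sn_le_SysD _
    · exact Nat.zero_le _
  · intro m x v hx hv
    exact (cs_def_SysD (p := fun w => p fun i => v i w)
      (c := fun l i j w => c l i j fun i => v i w) (hp.comp hv)
      fun l i j => (hc l i j).comp hv).imp
      (cm_def_SysD (p := fun w => p fun i => v i w) (g := fun i j => x (Sum.inl (i, j)))
        (c' := fun l i j => x (Sum.inr (l, i, j))) (c := fun l i j w => c l i j fun i => v i w)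
        (hp.comp hv) (fun i j => hx _) (fun l i j => hx _) fun l i j => (hc l i j).comp hv)
  · intro m x v hx hv
    have h1 := cs_def_SysD (p := fun w => p fun i => v i w)
      (c := fun l i j w => c l i j fun i => v i w) (hp.comp hv) fun l i j => (hc l i j).comp hv
    have h2 := cn_prime H (p := fun w => p fun i => v i w)
      (c := fun i j => x (Sum.inl (i, j))) (hp.comp hv) fun i j => hx _
    have h3 := common_def_SysD (p := fun w => p fun i => v i w)
      (g := fun i j => x (Sum.inl (i, j))) (c' := fun (l : Fin s) i j => x (Sum.inr (l, i, j))) B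
      (hp.comp hv) (fun i j => hx _) fun l i j => hx _
    exact DFun.ite h1 (h2.add h3) (DFun.ite (delta_prime (hp.comp hv))
      (DFun.powConst (hp.comp hv) 2) (DFun.const 0))
  · intro v
    by_cases h : Cs_SysD (p v) (fun l i j => c l i j v)
    · obtain ⟨g, c', hg, hc', h1⟩ := gcd_SysD h
      refine ⟨Sum.elim (fun i => g i.1 i.2) (fun i => c' i.1 i.2.1 i.2.2), ?_, fun _ => h1⟩
      rintro (i | i)
      · exact hg _ _
      · exact hc' _ _ _
    · exact ⟨fun _ => 0, fun _ => Nat.zero_le _, fun h1 => absurd h1 h⟩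
  · intro v x _ hx
    by_cases h : Cs_SysD (p v) (fun l i j => c l i j v)
    · obtain ⟨h1, h2, h3⟩ := hx h
      rw [if_pos h, if_pos h.1, if_pos h.1, min_eq_right (few_SysD h1 hB h3)]
      exact sn_eq h1 h2
    · rw [if_neg h]
      by_cases h1 : (p v).Prime
      · rw [if_pos h1, if_pos h1]
        refine sn_zero_SysD ?_
        by_contra h2
        exact h ⟨h1, h2⟩
      · rw [if_neg h1, if_neg h1]

private theorem sqf_SysD {n : ℕ} {f : (Fin n → ℕ) → ℕ} (hf : DFun n f) :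
    Delta0 n (fun v => Squarefree (f v)) := by
  have h1 : Delta0 (n + 1) (fun w => w 0 * w 0 ∣ f (fun i => w i.succ) → w 0 = 1) :=
    (delta_dvd ((DFun.proj 0).mul (DFun.proj 0)) hf.weak).imp
      (Delta0.eqFun (DFun.proj 0) (DFun.const 1))
  refine ((Delta0.ltFun (DFun.const 0) hf).and (Delta0.ballFun
    (P := fun x v => x * x ∣ f v → x = 1) hf h1)).of_iff fun v => ?_
  constructor
  · intro h
    exact ⟨Nat.pos_of_ne_zero h.ne_zero, fun x _ hx => Nat.isUnit_iff.1 (h x hx)⟩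
  · rintro ⟨h0, h⟩ x hx
    refine Nat.isUnit_iff.2 (h x ?_ hx)
    have h2 : x * x ≤ f v := Nat.le_of_dvd h0 hx
    exact (Nat.le_mul_self x).trans h2

private theorem crt_SysD {s D m : ℕ} (hm : Squarefree m)
    (c : Fin s → Fin (D + 1) → Fin (D + 1) → ℕ) :
    SN m c = ∏ p ∈ m.primeFactors, SN p c := by
  have h := PtC.crt_sqf
    (fun m x y => ∀ l, m ∣ ∑ i, ∑ j, c l i j * x ^ (i : ℕ) * y ^ (j : ℕ))
    (fun m x y => ?_) (fun k l x y hkl => ?_) (fun l => one_dvd _) hm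
  · unfold SN
    refine Eq.trans ?_ (h.trans ?_)
    · congr
    · refine Finset.prod_congr rfl fun q _ => ?_
      congr
  · refine forall_congr' fun l => ?_
    have e1 : ((∑ i, ∑ j, c l i j * (x % m) ^ (i : ℕ) * (y % m) ^ (j : ℕ) : ℕ) : ZMod m) =
        ((∑ i, ∑ j, c l i j * x ^ (i : ℕ) * y ^ (j : ℕ) : ℕ) : ZMod m) := by
      push_cast
      simp only [ZMod.natCast_mod]
    change m ∣ ∑ i, ∑ j, c l i j * (x % m) ^ (i : ℕ) * (y % m) ^ (j : ℕ) ↔
      m ∣ ∑ i, ∑ j, c l i j * x ^ (i : ℕ) * y ^ (j : ℕ)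
    rw [← ZMod.natCast_eq_zero_iff, ← ZMod.natCast_eq_zero_iff, e1]
  · constructor
    · intro h
      exact ⟨fun t => (Dvd.intro _ rfl).trans (h t), fun t => (Dvd.intro_left _ rfl).trans (h t)⟩
    · rintro ⟨h1, h2⟩ t
      exact Nat.Coprime.mul_dvd_of_dvd_of_dvd hkl (h1 t) (h2 t)

theorem sn_sqf (H : CurveHyp) {s D n : ℕ} {m : (Fin n → ℕ) → ℕ}
    {c : Fin s → Fin (D + 1) → Fin (D + 1) → (Fin n → ℕ) → ℕ} (hm : DFun n m)
    (hc : ∀ l i j, DFun n (c l i j)) :
    DFun n (fun v => if Squarefree (m v) then SN (m v) (fun l i j => c l i j v) else 0) := by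
  have hs : Delta0 n (fun v => Squarefree (m v)) := sqf_SysD hm
  have hm' : DFun n (fun v => if Squarefree (m v) then m v else 1) :=
    DFun.ite hs hm (DFun.const 1)
  have hg : DFun (n + 1) (fun w => (fun (q : ℕ) (v : Fin n → ℕ) =>
      if q.Prime then SN q (fun l i j => c l i j v) else 0) (w 0) (fun i => w i.succ)) :=
    sn_prime H (p := fun w => w 0) (c := fun l i j w => c l i j (fun i => w i.succ))
      (DFun.proj 0) fun l i j => (hc l i j).weak
  have hsq : ∀ v : Fin n → ℕ, Squarefree (if Squarefree (m v) then m v else 1) := by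
    intro v
    split_ifs with h
    · exact h
    · exact squarefree_one
  have hpr : ∀ v : Fin n → ℕ,
      ∏ q ∈ (if Squarefree (m v) then m v else 1).primeFactors,
        (if q.Prime then SN q (fun l i j => c l i j v) else 0) =
      SN (if Squarefree (m v) then m v else 1) (fun l i j => c l i j v) := by
    intro v
    rw [crt_SysD (hsq v)]
    refine Finset.prod_congr rfl fun q hq => ?_
    rw [if_pos (Nat.prime_of_mem_primeFactors hq)]
  have h := PtC.dfun_prodPF (n := n) (m := fun v => if Squarefree (m v) then m v else 1)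
    (B := fun v => (if Squarefree (m v) then m v else 1) ^ 2) hg hm' (DFun.powConst hm' 2)
    fun v => by
      rw [hpr v]
      exact sn_le_SysD _
  refine ECD.dfun_congr (DFun.ite hs h (DFun.const 0)) fun v => ?_
  by_cases h0 : Squarefree (m v)
  · have e := hpr v
    rw [if_pos h0] at e
    rw [if_pos h0, if_pos h0]
    rw [if_pos h0]
    exact e.symm
  · rw [if_neg h0, if_neg h0]

end Pool.Agent.CvT
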