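import Pool.Agent.CvT.NsP
import Pool.Agent.CvT.SysD
import Pool.Agent.DgP.StDef

/-!
# Package CvT-NsD: nonsingular solutions modulo all numbers

Complete proof. `m = 0`: `NS 0 c = 0`. `m > 0`: by `ns_split`, `ns_pow`, `ns_prime`:
`NS m c = ∏_{p ∣ m} p ^ (v_p(m) - 1) (CN p c - SN p ![c, cx c, cy c])`: `PtC.dfun_prodPF` with the bound
`m ^ 2`, `CvD.cn_prime`, `sn_prime` (`s = 3`), `DgP.val_def`, `DgP.powB_def` (as in `DgP.nm_def`, `HyP.en_all`).
-/

set_option autoImplicit false

namespace Pool.Agent.CvT

open Finset Polynomial Pool.Agent.Grz Pool.Agent.GAvg Pool.Agent.PTr Pool.Agent.MTr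
  Pool.Agent.LPC Pool.Agent.ECD Pool.Agent.CvD
open scoped Classical

private theorem ns_le_NsD (m : ℕ) {D : ℕ} (c : Fin (D + 1) → Fin (D + 1) → ℕ) :
    NS m c ≤ m * m := by
  unfold NS
  refine (Finset.card_filter_le _ _).trans ?_
  rw [Finset.card_product, Finset.card_range]

/-- the three arrays -/
private def arr_NsD {D n : ℕ} (c : Fin (D + 1) → Fin (D + 1) → (Fin n → ℕ) → ℕ) (l : Fin 3)
    (i j : Fin (D + 1)) (v : Fin n → ℕ) : ℕ :=
  (![fun i j => c i j v, cx fun i j => c i j v, cy fun i j => c i j v] :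
    Fin 3 → Fin (D + 1) → Fin (D + 1) → ℕ) l i j

private theorem arr_def_NsD {D n : ℕ} {c : Fin (D + 1) → Fin (D + 1) → (Fin n → ℕ) → ℕ}
    (hc : ∀ i j, DFun n (c i j)) (l : Fin 3) (i j : Fin (D + 1)) :
    DFun n (arr_NsD c l i j) := by
  fin_cases l
  · exact hc i j
  · change DFun n (fun v => cx (fun i j => c i j v) i j)
    unfold cx
    by_cases h : (i : ℕ) + 1 < D + 1
    · simp only [h, dif_pos]
      exact (DFun.const _).mul (hc _ _)
    · simp only [h, dif_neg, not_false_eq_true]
      exact (DFun.const _).mul (DFun.const _)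
  · change DFun n (fun v => cy (fun i j => c i j v) i j)
    unfold cy
    by_cases h : (j : ℕ) + 1 < D + 1
    · simp only [h, dif_pos]
      exact (DFun.const _).mul (hc _ _)
    · simp only [h, dif_neg, not_false_eq_true]
      exact (DFun.const _).mul (DFun.const _)

theorem ns_all (H : CurveHyp) {D n : ℕ} {m : (Fin n → ℕ) → ℕ}
    {c : Fin (D + 1) → Fin (D + 1) → (Fin n → ℕ) → ℕ} (hm : DFun n m)
    (hc : ∀ i j, DFun n (c i j)) :
    DFun n (fun v => NS (m v) (fun i j => c i j v)) := by
  have hcn := cn_prime H (n := n + 1) (p := fun w => w 0)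
    (c := fun i j w => c i j fun k => w k.succ) (DFun.proj 0) (fun i j => (hc i j).weak)
  have hsn := sn_prime H (n := n + 1) (p := fun w => w 0)
    (c := fun l i j w => arr_NsD c l i j fun k => w k.succ) (DFun.proj 0)
    (fun l i j => (arr_def_NsD hc l i j).weak)
  have hval := DgP.val_def (N := n + 1) (p := fun w => w 0) (DFun.proj 0) hm.weak
  have hpw := (DgP.powB_def (N := n + 1) (x := fun w => w 0) (DFun.proj 0)
    (hval.sub (DFun.const 1)) hm.weak).1
  have hg := hpw.mul (hcn.sub hsn)
  have key : ∀ v : Fin n → ℕ, 0 < m v → ∀ q ∈ (m v).primeFactors,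
      (if q ^ ((if q.Prime then (m v).factorization q else 0) - 1) ≤ m v then
        q ^ ((if q.Prime then (m v).factorization q else 0) - 1) else 0) *
        ((if q.Prime then CN q (fun i j => c i j v) else 0) -
          if q.Prime then SN q (fun l i j => arr_NsD c l i j v) else 0) =
      NS (q ^ (m v).factorization q) (fun i j => c i j v) := by
    intro v hv q hq
    have hqp := Nat.prime_of_mem_primeFactors hq
    have hqd := Nat.dvd_of_mem_primeFactors hq
    have h1 : 0 < (m v).factorization q := hqp.factorization_pos_of_dvd hv.ne' hqd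
    obtain ⟨e, he⟩ := Nat.exists_eq_add_of_le' h1
    have h2 : q ^ ((m v).factorization q - 1) ≤ m v :=
      (Nat.pow_le_pow_right hqp.pos (Nat.sub_le _ _)).trans (Nat.ordProj_le q hv.ne')
    rw [if_pos hqp, if_pos h2, if_pos hqp, if_pos hqp, he, Nat.add_sub_cancel, ns_pow hqp]
    congr 1
    have h3 := ns_prime (c := fun i j => c i j v) hqp
    have h4 : (fun l i j => arr_NsD c l i j v) =
        ![fun i j => c i j v, cx fun i j => c i j v, cy fun i j => c i j v] := by
      funext l i j
      rfl
    rw [h4]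
    omega
  have hprod := PtC.dfun_prodPF (n := n) (m := m) (B := fun v => m v * m v + 1)
    (g := fun q v => (if q ^ ((if q.Prime then (m v).factorization q else 0) - 1) ≤ m v then
        q ^ ((if q.Prime then (m v).factorization q else 0) - 1) else 0) *
        ((if q.Prime then CN q (fun i j => c i j v) else 0) -
          if q.Prime then SN q (fun l i j => arr_NsD c l i j v) else 0)) hg hm
    ((hm.mul hm).add (DFun.const 1))
    (fun v => by
      rcases Nat.eq_zero_or_pos (m v) with h0 | h0
      · rw [h0, Nat.primeFactors_zero, Finset.prod_empty]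
        exact Nat.le_add_left 1 _
      · rw [Finset.prod_congr rfl (key v h0), ← ns_split h0]
        exact (ns_le_NsD _ _).trans (Nat.le_succ _))
  have h := DFun.ite (Delta0.eqFun hm (DFun.const 0)) (DFun.const 0) hprod
  refine dfun_congr h fun v => ?_
  by_cases h0 : m v = 0
  · rw [if_pos h0, h0]
    exact Nat.le_zero.1 (ns_le_NsD _ _)
  · rw [if_neg h0, Finset.prod_congr rfl (key v (Nat.pos_of_ne_zero h0)),
      ← ns_split (Nat.pos_of_ne_zero h0)]

end Pool.Agent.CvT
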