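import Pool.Agent.CvT.Defs

/-!
# Package CvT-NsP: nonsingular solutions modulo prime powers

Complete proofs.

* `vf_tay`: `vf c (x + q a) (y + q b) ≡ vf c x y + q (a vx c x y + b vy c x y)` modulo `q ^ 2`, and modulo
  every `q'` with `q' ∣ q ^ 2`: binomial theorem for each monomial
  (`(x + q a) ^ i ≡ x ^ i + i q a x ^ (i - 1)` modulo `q ^ 2`).
* `ns_succ`, `e ≥ 1`: the solutions modulo `p ^ (e + 1)` are `(x + p ^ e a, y + p ^ e b)`, `x, y < p ^ e`,
  `a, b < p`, with `(x, y)` a solution modulo `p ^ e` (nonsingular modulo `p`: the derivatives modulo `p` do not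
  change) and, by `vf_tay` with `q = p ^ e` (`2 e ≥ e + 1`), `vf c x y / p ^ e + a vx + b vy ≡ 0` modulo `p`.
  Since `p` does not divide both `vx` and `vy`, exactly `p` pairs `(a, b)` satisfy this.
* `ns_pow`: induction. `ns_prime`: the solutions modulo `p` that are singular are the common
  zeros of the three polynomials (`vx c = vf (cx c)`, `vy c = vf (cy c)`: `vx_eq`, `vy_eq`, shift of the
  index).
* `ns_split`: `m > 0`: the Chinese remainder theorem as in `HyP.en_split`, `DgP.nm_split`: for coprime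
  `a`, `b` the nonsingular solutions modulo `a b` are the pairs of the ones modulo `a` and `b` (a prime
  divides `a b` iff it divides `a` or `b`).
-/

set_option autoImplicit false

namespace Pool.Agent.CvT

open Finset Pool.Agent.CvD

variable {D p : ℕ} {c : Fin (D + 1) → Fin (D + 1) → ℕ}

theorem vx_eq (x y : ℕ) : vx c x y = vf (cx c) x y := by
  unfold vx vf
  rw [Fin.sum_univ_succ, Fin.sum_univ_castSucc (f := fun i : Fin (D + 1) =>
    ∑ j, cx c i j * x ^ (i : ℕ) * y ^ (j : ℕ))]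
  have h0 : ∑ j : Fin (D + 1), ((0 : Fin (D + 1)) : ℕ) * c 0 j * x ^ (((0 : Fin (D + 1)) : ℕ) - 1) *
      y ^ (j : ℕ) = 0 := by
    refine Finset.sum_eq_zero fun j _ => ?_
    simp
  have h1 : ∑ j : Fin (D + 1), cx c (Fin.last D) j * x ^ ((Fin.last D : Fin (D + 1)) : ℕ) *
      y ^ (j : ℕ) = 0 := by
    refine Finset.sum_eq_zero fun j _ => ?_
    simp [cx]
  rw [h0, h1, zero_add, add_zero]
  refine Finset.sum_congr rfl fun i _ => Finset.sum_congr rfl fun j _ => ?_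
  have h2 : cx c i.castSucc j = ((i : ℕ) + 1) * c i.succ j := by
    unfold cx
    rw [dif_pos (by simp [i.isLt])]
    rfl
  rw [h2]
  simp

theorem vy_eq (x y : ℕ) : vy c x y = vf (cy c) x y := by
  unfold vy vf
  refine Finset.sum_congr rfl fun i _ => ?_
  rw [Fin.sum_univ_succ, Fin.sum_univ_castSucc (f := fun j : Fin (D + 1) =>
    cy c i j * x ^ (i : ℕ) * y ^ (j : ℕ))]
  have h0 : ((0 : Fin (D + 1)) : ℕ) * c i 0 * x ^ (i : ℕ) *
      y ^ (((0 : Fin (D + 1)) : ℕ) - 1) = 0 := by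
    simp
  have h1 : cy c i (Fin.last D) * x ^ (i : ℕ) * y ^ ((Fin.last D : Fin (D + 1)) : ℕ) = 0 := by
    simp [cy]
  rw [h0, h1, zero_add, add_zero]
  refine Finset.sum_congr rfl fun j _ => ?_
  have h2 : cy c i j.castSucc = ((j : ℕ) + 1) * c i j.succ := by
    unfold cy
    rw [dif_pos (by simp [j.isLt])]
    rfl
  rw [h2]
  simp

private theorem pw_NsP {R : Type*} [CommRing R] {q : R} (hq : q ^ 2 = 0) (a x : R) (i : ℕ) :
    (x + q * a) ^ i = x ^ i + q * (a * ((i : R) * x ^ (i - 1))) := by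
  induction i with
  | zero => simp
  | succ i ih =>
    rw [pow_succ, ih]
    have h : (i : R) * x ^ (i - 1) * x = (i : R) * x ^ i := by
      rcases Nat.eq_zero_or_pos i with h | h
      · simp [h]
      · rw [mul_assoc, ← pow_succ, Nat.sub_add_cancel h]
    have e : (x ^ i + q * (a * ((i : R) * x ^ (i - 1)))) * (x + q * a) =
        x ^ (i + 1) + q * a * ((i : R) * x ^ (i - 1) * x) + q * a * x ^ i +
          q ^ 2 * (a ^ 2 * ((i : R) * x ^ (i - 1))) := by ring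
    rw [e, h, hq, Nat.add_sub_cancel]
    push_cast
    ring

theorem vf_tay (q a b x y : ℕ) : vf c (x + q * a) (y + q * b) ≡
    vf c x y + q * (a * vx c x y + b * vy c x y) [MOD q ^ 2] := by
  rw [← ZMod.natCast_eq_natCast_iff]
  have hq : ((q : ZMod (q ^ 2))) ^ 2 = 0 := by
    have := ZMod.natCast_self (q ^ 2)
    rwa [Nat.cast_pow] at this
  unfold vf vx vy
  push_cast
  rw [Finset.mul_sum, Finset.mul_sum, ← Finset.sum_add_distrib, Finset.mul_sum,
    ← Finset.sum_add_distrib]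
  refine Finset.sum_congr rfl fun i _ => ?_
  rw [Finset.mul_sum, Finset.mul_sum, ← Finset.sum_add_distrib, Finset.mul_sum,
    ← Finset.sum_add_distrib]
  refine Finset.sum_congr rfl fun j _ => ?_
  rw [pw_NsP hq, pw_NsP hq]
  linear_combination ((c i j : ZMod (q ^ 2)) * (a : ZMod (q ^ 2)) * ((i : ℕ) : ZMod (q ^ 2)) *
    (x : ZMod (q ^ 2)) ^ ((i : ℕ) - 1) * ((b : ZMod (q ^ 2)) * (((j : ℕ) : ZMod (q ^ 2)) *
    (y : ZMod (q ^ 2)) ^ ((j : ℕ) - 1)))) * hq

private theorem vf_mod_NsP {D : ℕ} (c : Fin (D + 1) → Fin (D + 1) → ℕ) {m x y x' y' : ℕ}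
    (hx : x ≡ x' [MOD m]) (hy : y ≡ y' [MOD m]) : vf c x y ≡ vf c x' y' [MOD m] := by
  rw [← ZMod.natCast_eq_natCast_iff] at hx hy ⊢
  unfold vf
  push_cast
  rw [hx, hy]

private theorem dvd_NsP {m A B : ℕ} (h : A ≡ B [MOD m]) : m ∣ A ↔ m ∣ B := by
  rw [← Nat.modEq_zero_iff_dvd, ← Nat.modEq_zero_iff_dvd]
  exact ⟨fun h' => h.symm.trans h', fun h' => h.trans h'⟩

private theorem lin1_NsP (hp : p.Prime) (V A B : ℕ) (h : ¬ p ∣ B) :
    #{z ∈ range p ×ˢ range p | p ∣ V + (z.1 * A + z.2 * B)} = p := by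
  have := Fact.mk hp
  have : NeZero p := ⟨hp.pos.ne'⟩
  have hB : (B : ZMod p) ≠ 0 := fun h' => h ((ZMod.natCast_eq_zero_iff B p).1 h')
  have key : #{z ∈ range p ×ˢ range p | p ∣ V + (z.1 * A + z.2 * B)} = #(range p) := by
    refine Finset.card_nbij' (fun z => z.1)
      (fun a => (a, (-((V : ZMod p) + a * A) * (B : ZMod p)⁻¹).val)) ?_ ?_ ?_ ?_
    · intro z hz
      simp only [coe_filter, mem_product, Set.mem_ofPred_eq, coe_range, Set.mem_Iio,
        mem_range] at hz ⊢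
      exact hz.1.1
    · intro a ha
      simp only [coe_filter, mem_product, Set.mem_ofPred_eq, coe_range, Set.mem_Iio,
        mem_range] at ha ⊢
      refine ⟨⟨ha, ZMod.val_lt _⟩, ?_⟩
      rw [← ZMod.natCast_eq_zero_iff]
      push_cast
      rw [ZMod.natCast_zmod_val, mul_assoc, inv_mul_cancel₀ hB]
      ring
    · intro z hz
      simp only [coe_filter, mem_product, Set.mem_ofPred_eq, mem_range] at hz
      refine Prod.ext rfl ?_
      have h1 := (ZMod.natCast_eq_zero_iff _ p).2 hz.2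
      push_cast at h1
      have h2 : -((V : ZMod p) + z.1 * A) * (B : ZMod p)⁻¹ = (z.2 : ZMod p) := by
        rw [mul_inv_eq_iff_eq_mul₀ hB]
        linear_combination -h1
      change (-((V : ZMod p) + z.1 * A) * (B : ZMod p)⁻¹).val = z.2
      rw [h2, ZMod.val_natCast_of_lt hz.1.2]
    · intro a _
      rfl
  rw [key, card_range]

private theorem lin_NsP (hp : p.Prime) (V A B : ℕ) (h : ¬ (p ∣ A ∧ p ∣ B)) :
    #{z ∈ range p ×ˢ range p | p ∣ V + (z.1 * A + z.2 * B)} = p := by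
  by_cases hB : p ∣ B
  · have hA : ¬ p ∣ A := fun hA => h ⟨hA, hB⟩
    refine Eq.trans ?_ (lin1_NsP hp V B A hA)
    refine Finset.card_nbij' Prod.swap Prod.swap ?_ ?_ (fun _ _ => rfl) (fun _ _ => rfl)
    · intro z hz
      simp only [coe_filter, mem_product, Set.mem_ofPred_eq, mem_range, Prod.fst_swap,
        Prod.snd_swap] at hz ⊢
      exact ⟨⟨hz.1.2, hz.1.1⟩, by rw [add_comm (z.2 * B)]; exact hz.2⟩
    · intro z hz
      simp only [coe_filter, mem_product, Set.mem_ofPred_eq, mem_range, Prod.fst_swap,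
        Prod.snd_swap] at hz ⊢
      exact ⟨⟨hz.1.2, hz.1.1⟩, by rw [add_comm (z.2 * A)]; exact hz.2⟩
  · exact lin1_NsP hp V A B hB

private theorem sing_NsP (hp : p.Prime) (e x y : ℕ) :
    (∀ q, q.Prime → q ∣ p ^ (e + 1) → ¬ (q ∣ vx c x y ∧ q ∣ vy c x y)) ↔
      ¬ (p ∣ vx c x y ∧ p ∣ vy c x y) := by
  constructor
  · intro h
    exact h p hp (dvd_pow_self p (Nat.succ_ne_zero e))
  · intro h q hq hqd
    rw [(Nat.prime_dvd_prime_iff_eq hq hp).1 (hq.dvd_of_dvd_pow hqd)]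
    exact h

theorem ns_succ (hp : p.Prime) {e : ℕ} (he : 1 ≤ e) : NS (p ^ (e + 1)) c = p * NS (p ^ e) c := by
  classical
  obtain ⟨e, rfl⟩ : ∃ f, e = f + 1 := ⟨e - 1, by omega⟩
  unfold NS
  have hM : 0 < p ^ (e + 1) := pow_pos hp.pos _
  have hMp : p ^ (e + 1 + 1) = p ^ (e + 1) * p := pow_succ _ _
  have hpM : p ∣ p ^ (e + 1) := dvd_pow_self p (Nat.succ_ne_zero e)
  have hd2 : p ^ (e + 1 + 1) ∣ (p ^ (e + 1)) ^ 2 := by
    rw [← pow_mul]
    exact pow_dvd_pow p (by omega)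
  have hvx : ∀ x y x' y' : ℕ, x ≡ x' [MOD p] → y ≡ y' [MOD p] → (p ∣ vx c x y ↔ p ∣ vx c x' y') :=
    fun x y x' y' h1 h2 => by
      rw [vx_eq, vx_eq]
      exact dvd_NsP (vf_mod_NsP _ h1 h2)
  have hvy : ∀ x y x' y' : ℕ, x ≡ x' [MOD p] → y ≡ y' [MOD p] → (p ∣ vy c x y ↔ p ∣ vy c x' y') :=
    fun x y x' y' h1 h2 => by
      rw [vy_eq, vy_eq]
      exact dvd_NsP (vf_mod_NsP _ h1 h2)
  have hmodM : ∀ x : ℕ, x % p ^ (e + 1) ≡ x [MOD p ^ (e + 1)] := fun x => Nat.mod_modEq x _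
  have hmodp : ∀ x : ℕ, x % p ^ (e + 1) ≡ x [MOD p] := fun x => (hmodM x).of_dvd hpM
  simp only [sing_NsP hp]
  set S' : Finset (ℕ × ℕ) := {z ∈ range (p ^ (e + 1 + 1)) ×ˢ range (p ^ (e + 1 + 1)) |
    p ^ (e + 1 + 1) ∣ vf c z.1 z.2 ∧ ¬ (p ∣ vx c z.1 z.2 ∧ p ∣ vy c z.1 z.2)} with hS'
  set S : Finset (ℕ × ℕ) := {z ∈ range (p ^ (e + 1)) ×ˢ range (p ^ (e + 1)) |
    p ^ (e + 1) ∣ vf c z.1 z.2 ∧ ¬ (p ∣ vx c z.1 z.2 ∧ p ∣ vy c z.1 z.2)} with hS
  have hmap : ∀ z ∈ S', (z.1 % p ^ (e + 1), z.2 % p ^ (e + 1)) ∈ S := by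
    intro z hz
    rw [hS', mem_filter, mem_product] at hz
    rw [hS, mem_filter, mem_product]
    refine ⟨⟨mem_range.2 (Nat.mod_lt _ hM), mem_range.2 (Nat.mod_lt _ hM)⟩, ?_, ?_⟩
    · exact (dvd_NsP (vf_mod_NsP c (hmodM z.1) (hmodM z.2))).2
        ((pow_dvd_pow p (by omega)).trans hz.2.1)
    · change ¬ (p ∣ vx c (z.1 % p ^ (e + 1)) (z.2 % p ^ (e + 1)) ∧
        p ∣ vy c (z.1 % p ^ (e + 1)) (z.2 % p ^ (e + 1)))
      rw [hvx _ _ _ _ (hmodp z.1) (hmodp z.2), hvy _ _ _ _ (hmodp z.1) (hmodp z.2)]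
      exact hz.2.2
  rw [Finset.card_eq_sum_card_fiberwise (f := fun z : ℕ × ℕ =>
    (z.1 % p ^ (e + 1), z.2 % p ^ (e + 1))) (t := S) (fun z hz => hmap z hz)]
  rw [Finset.sum_const_nat (m := p), mul_comm]
  rintro ⟨x, y⟩ hxy
  rw [hS, mem_filter, mem_product, mem_range, mem_range] at hxy
  obtain ⟨⟨hx, hy⟩, hV, hns⟩ := hxy
  simp only at hx hy hV hns
  obtain ⟨V, hV⟩ := hV
  refine Eq.trans ?_ (lin_NsP hp V (vx c x y) (vy c x y) hns)
  have hdiv : ∀ a b : ℕ, p ^ (e + 1 + 1) ∣ vf c (x + p ^ (e + 1) * a) (y + p ^ (e + 1) * b) ↔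
      p ∣ V + (a * vx c x y + b * vy c x y) := by
    intro a b
    have h1 : vf c (x + p ^ (e + 1) * a) (y + p ^ (e + 1) * b) ≡
        p ^ (e + 1) * (V + (a * vx c x y + b * vy c x y)) [MOD p ^ (e + 1 + 1)] := by
      have h2 := (vf_tay (c := c) (p ^ (e + 1)) a b x y).of_dvd hd2
      rw [hV, ← mul_add] at h2
      exact h2
    rw [dvd_NsP h1, hMp]
    exact Nat.mul_dvd_mul_iff_left hM
  have hlt : ∀ x a : ℕ, x < p ^ (e + 1) → a < p → x + p ^ (e + 1) * a < p ^ (e + 1 + 1) := by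
    intro x a hx ha
    rw [hMp]
    calc x + p ^ (e + 1) * a < p ^ (e + 1) + p ^ (e + 1) * a := by omega
      _ = p ^ (e + 1) * (a + 1) := by ring
      _ ≤ p ^ (e + 1) * p := Nat.mul_le_mul_left _ ha
  refine Finset.card_nbij' (fun z => (z.1 / p ^ (e + 1), z.2 / p ^ (e + 1)))
    (fun z => (x + p ^ (e + 1) * z.1, y + p ^ (e + 1) * z.2)) ?_ ?_ ?_ ?_
  · rintro ⟨x', y'⟩ hz
    rw [Finset.mem_coe, mem_filter, hS', mem_filter, mem_product, mem_range, mem_range] at hz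
    obtain ⟨⟨⟨hx', hy'⟩, hd, hn⟩, heq⟩ := hz
    simp only [Prod.mk.injEq] at heq hx' hy' hd hn
    rw [Finset.mem_coe, mem_filter, mem_product, mem_range, mem_range]
    refine ⟨⟨?_, ?_⟩, ?_⟩
    · rw [hMp] at hx'
      exact Nat.div_lt_of_lt_mul hx'
    · rw [hMp] at hy'
      exact Nat.div_lt_of_lt_mul hy'
    · rw [← hdiv]
      have e1 : x + p ^ (e + 1) * (x' / p ^ (e + 1)) = x' := by
        rw [← heq.1]
        exact Nat.mod_add_div x' _
      have e2 : y + p ^ (e + 1) * (y' / p ^ (e + 1)) = y' := by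
        rw [← heq.2]
        exact Nat.mod_add_div y' _
      simp only [e1, e2]
      exact hd
  · rintro ⟨a, b⟩ hz
    rw [Finset.mem_coe, mem_filter, mem_product, mem_range, mem_range] at hz
    obtain ⟨⟨ha, hb⟩, hd⟩ := hz
    simp only at ha hb hd
    have m1 : (x + p ^ (e + 1) * a) % p ^ (e + 1) = x := by
      rw [Nat.add_mul_mod_self_left, Nat.mod_eq_of_lt hx]
    have m2 : (y + p ^ (e + 1) * b) % p ^ (e + 1) = y := by
      rw [Nat.add_mul_mod_self_left, Nat.mod_eq_of_lt hy]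
    rw [Finset.mem_coe, mem_filter, hS', mem_filter, mem_product, mem_range, mem_range]
    refine ⟨⟨⟨hlt x a hx ha, hlt y b hy hb⟩, (hdiv a b).2 hd, ?_⟩, ?_⟩
    · have h1 := hmodp (x + p ^ (e + 1) * a)
      have h2 := hmodp (y + p ^ (e + 1) * b)
      rw [m1] at h1
      rw [m2] at h2
      change ¬ (p ∣ vx c (x + p ^ (e + 1) * a) (y + p ^ (e + 1) * b) ∧
        p ∣ vy c (x + p ^ (e + 1) * a) (y + p ^ (e + 1) * b))
      rw [← hvx _ _ _ _ h1 h2, ← hvy _ _ _ _ h1 h2]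
      exact hns
    · change ((x + p ^ (e + 1) * a) % p ^ (e + 1), (y + p ^ (e + 1) * b) % p ^ (e + 1)) = (x, y)
      rw [m1, m2]
  · rintro ⟨x', y'⟩ hz
    rw [Finset.mem_coe, mem_filter] at hz
    have heq := hz.2
    simp only [Prod.mk.injEq] at heq
    change (x + p ^ (e + 1) * (x' / p ^ (e + 1)), y + p ^ (e + 1) * (y' / p ^ (e + 1))) = (x', y')
    rw [← heq.1, ← heq.2, Nat.mod_add_div, Nat.mod_add_div]
  · rintro ⟨a, b⟩ _
    change ((x + p ^ (e + 1) * a) / p ^ (e + 1), (y + p ^ (e + 1) * b) / p ^ (e + 1)) = (a, b)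
    rw [Nat.add_mul_div_left _ _ hM, Nat.add_mul_div_left _ _ hM, Nat.div_eq_of_lt hx,
      Nat.div_eq_of_lt hy, zero_add, zero_add]

theorem ns_pow (hp : p.Prime) (e : ℕ) : NS (p ^ (e + 1)) c = p ^ e * NS p c := by
  induction e with
  | zero => rw [zero_add, pow_one, pow_zero, one_mul]
  | succ e ih =>
    rw [ns_succ hp (by omega), ih, pow_succ]
    ring

theorem ns_prime (hp : p.Prime) : NS p c + SN p ![c, cx c, cy c] = CN p c := by
  classical
  have h0 : ∀ x y : ℕ, (∀ q, q.Prime → q ∣ p → ¬ (q ∣ vx c x y ∧ q ∣ vy c x y)) ↔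
      ¬ (p ∣ vx c x y ∧ p ∣ vy c x y) := by
    intro x y
    have h := sing_NsP (c := c) hp 0 x y
    rwa [zero_add, pow_one] at h
  have h1 : SN p ![c, cx c, cy c] = #{z ∈ range p ×ˢ range p | p ∣ vf c z.1 z.2 ∧
      (p ∣ vx c z.1 z.2 ∧ p ∣ vy c z.1 z.2)} := by
    unfold SN
    congr 1
    refine Finset.filter_congr fun z _ => ?_
    rw [Fin.forall_fin_succ, Fin.forall_fin_two, vx_eq, vy_eq]
    rfl
  have h2 : CN p c = #{z ∈ range p ×ˢ range p | p ∣ vf c z.1 z.2} := rfl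
  rw [h1, h2]
  unfold NS
  simp only [h0]
  rw [← Finset.filter_filter, ← Finset.filter_filter, add_comm]
  exact Finset.card_filter_add_card_filter_not _

private theorem crt_NsP (P : ℕ → ℕ → ℕ → Prop) [∀ m x y, Decidable (P m x y)]
    (hP : ∀ m x y, P m (x % m) (y % m) ↔ P m x y)
    (hm : ∀ a b x y, Nat.Coprime a b → (P (a * b) x y ↔ P a x y ∧ P b x y))
    {a b : ℕ} (ha : 0 < a) (hb : 0 < b) (hab : Nat.Coprime a b) :
    #{z ∈ range (a * b) ×ˢ range (a * b) | P (a * b) z.1 z.2} =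
      #{z ∈ range a ×ˢ range a | P a z.1 z.2} * #{z ∈ range b ×ˢ range b | P b z.1 z.2} := by
  rw [← Finset.card_product]
  refine Finset.card_bij (fun z _ => ((z.1 % a, z.2 % a), (z.1 % b, z.2 % b))) ?_ ?_ ?_
  · rintro ⟨x, y⟩ hz
    rw [mem_filter, mem_product, mem_range, mem_range] at hz
    rw [mem_product, mem_filter, mem_filter, mem_product, mem_product]
    have h := (hm a b x y hab).1 hz.2
    exact ⟨⟨⟨mem_range.2 (Nat.mod_lt _ ha), mem_range.2 (Nat.mod_lt _ ha)⟩, (hP a x y).2 h.1⟩,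
      ⟨⟨mem_range.2 (Nat.mod_lt _ hb), mem_range.2 (Nat.mod_lt _ hb)⟩, (hP b x y).2 h.2⟩⟩
  · rintro ⟨x, y⟩ hz ⟨x', y'⟩ hz' h
    rw [mem_filter, mem_product, mem_range, mem_range] at hz hz'
    simp only [Prod.mk.injEq] at h
    have h1 : x ≡ x' [MOD a * b] := (Nat.modEq_and_modEq_iff_modEq_mul hab).1 ⟨h.1.1, h.2.1⟩
    have h2 : y ≡ y' [MOD a * b] := (Nat.modEq_and_modEq_iff_modEq_mul hab).1 ⟨h.1.2, h.2.2⟩
    exact Prod.ext (h1.eq_of_lt_of_lt hz.1.1 hz'.1.1) (h2.eq_of_lt_of_lt hz.1.2 hz'.1.2)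
  · rintro ⟨⟨x, y⟩, ⟨x', y'⟩⟩ hz
    rw [mem_product, mem_filter, mem_filter, mem_product, mem_product, mem_range, mem_range,
      mem_range, mem_range] at hz
    simp only at hz
    obtain ⟨⟨⟨hx, hy⟩, h1⟩, ⟨⟨hx', hy'⟩, h2⟩⟩ := hz
    have ux := (Nat.chineseRemainder hab x x').2
    have uy := (Nat.chineseRemainder hab y y').2
    have lx := Nat.chineseRemainder_lt_mul hab x x' ha.ne' hb.ne'
    have ly := Nat.chineseRemainder_lt_mul hab y y' ha.ne' hb.ne'
    set u : ℕ := (Nat.chineseRemainder hab x x' : ℕ)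
    set v : ℕ := (Nat.chineseRemainder hab y y' : ℕ)
    have e1 : u % a = x := by rw [ux.1, Nat.mod_eq_of_lt hx]
    have e2 : u % b = x' := by rw [ux.2, Nat.mod_eq_of_lt hx']
    have e3 : v % a = y := by rw [uy.1, Nat.mod_eq_of_lt hy]
    have e4 : v % b = y' := by rw [uy.2, Nat.mod_eq_of_lt hy']
    refine ⟨(u, v), ?_, ?_⟩
    · rw [mem_filter, mem_product, mem_range, mem_range]
      refine ⟨⟨lx, ly⟩, (hm a b u v hab).2 ⟨(hP a u v).1 ?_, (hP b u v).1 ?_⟩⟩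
      · rw [e1, e3]
        exact h1
      · rw [e2, e4]
        exact h2
    · simp only [e1, e2, e3, e4]

private theorem mul_NsP {a b : ℕ} (ha : 0 < a) (hb : 0 < b) (hab : Nat.Coprime a b) :
    NS (a * b) c = NS a c * NS b c := by
  classical
  have h := crt_NsP (fun m x y => m ∣ vf c x y ∧
    ∀ p, p.Prime → p ∣ m → ¬ (p ∣ vx c x y ∧ p ∣ vy c x y)) (fun m x y => by
      refine and_congr (dvd_NsP (vf_mod_NsP c (Nat.mod_modEq x m) (Nat.mod_modEq y m)))
        (forall_congr' fun p => imp_congr_right fun hp => imp_congr_right fun hpm => not_congr ?_)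
      have h1 := (Nat.mod_modEq x m).of_dvd hpm
      have h2 := (Nat.mod_modEq y m).of_dvd hpm
      rw [vx_eq, vy_eq, vx_eq, vy_eq]
      exact and_congr (dvd_NsP (vf_mod_NsP _ h1 h2)) (dvd_NsP (vf_mod_NsP _ h1 h2)))
    (fun a b x y hab => by
      constructor
      · rintro ⟨h1, h2⟩
        exact ⟨⟨(Dvd.intro b rfl).trans h1, fun q hq hqa => h2 q hq (hqa.mul_right b)⟩,
          ⟨(Dvd.intro_left a rfl).trans h1, fun q hq hqb => h2 q hq (hqb.mul_left a)⟩⟩
      · rintro ⟨⟨h1, h2⟩, h3, h4⟩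
        refine ⟨hab.mul_dvd_of_dvd_of_dvd h1 h3, fun q hq hqab => ?_⟩
        rcases (hq.dvd_mul).1 hqab with h | h
        · exact h2 q hq h
        · exact h4 q hq h) ha hb hab
  unfold NS
  convert h

private theorem one_NsP : NS 1 c = 1 := by
  classical
  unfold NS
  rw [Finset.filter_true_of_mem]
  · simp
  · intro z _
    refine ⟨one_dvd _, fun q hq h1 => ?_⟩
    exact absurd (Nat.dvd_one.1 h1) hq.one_lt.ne'

theorem ns_split {m : ℕ} (hm : 0 < m) :
    NS m c = ∏ p ∈ m.primeFactors, NS (p ^ m.factorization p) c := by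
  revert hm
  refine Nat.recOnPosPrimePosCoprime (motive := fun m => 0 < m →
    NS m c = ∏ p ∈ m.primeFactors, NS (p ^ m.factorization p) c) ?_ ?_ ?_ ?_ m
  · intro p k hp hk _
    rw [Nat.primeFactors_prime_pow hk.ne' hp, Finset.prod_singleton, hp.factorization_pow,
      Finsupp.single_eq_same]
  · intro h
    exact absurd h (lt_irrefl 0)
  · intro _
    rw [Nat.primeFactors_one, Finset.prod_empty, one_NsP]
  · intro x y hx hy hxy ihx ihy _
    have hx0 : 0 < x := by omega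
    have hy0 : 0 < y := by omega
    rw [mul_NsP hx0 hy0 hxy, hxy.primeFactors_mul,
      Finset.prod_union hxy.disjoint_primeFactors, ihx hx0, ihy hy0]
    congr 1
    · refine Finset.prod_congr rfl fun p hp => ?_
      rw [Nat.factorization_eq_of_coprime_left hxy
        (Nat.mem_primeFactors_iff_mem_primeFactorsList.1 hp)]
    · refine Finset.prod_congr rfl fun p hp => ?_
      rw [Nat.factorization_eq_of_coprime_right hxy
        (Nat.mem_primeFactors_iff_mem_primeFactorsList.1 hp)]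

end Pool.Agent.CvT
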