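import Pool.Agent.CvT.SysD

/-!
# Package CvT-PatD: numbers of pairs with a given pattern

Complete proofs. `pat_def`, induction on the finite set `B`.

* `B = ∅`: replace the arrays `c l` with `l ∉ A` by `0`; then the condition is `∀ l, p ∣ …`, and the number is
  `SN p c'`: `sn_prime` (`DFun.const 0` for the replaced arrays; case distinction `l ∈ A` outside).
* `insert b B`: the number for `(A, insert b B)` is the number for `(A, B)` minus the one for
  `(insert b A, B)` (`DFun.sub`).

`bool_def`: the number of the pairs with `φ (pattern)` is the sum over the finitely many patterns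
`Q : Fin s → Prop` with `φ Q` of the number for `A = {l | Q l}`, `B` its complement (`DFun.finSum`).
-/

set_option autoImplicit false

namespace Pool.Agent.CvT

open Finset Polynomial Pool.Agent.Grz Pool.Agent.GAvg Pool.Agent.PTr Pool.Agent.MTr
  Pool.Agent.LPC Pool.Agent.ECD Pool.Agent.CvD
open scoped Classical

/-- the number of the pairs with a given pattern -/
private def PN_PatD (p : ℕ) {s D : ℕ} (c : Fin s → Fin (D + 1) → Fin (D + 1) → ℕ)
    (A B : Finset (Fin s)) : ℕ :=
  #{z ∈ range p ×ˢ range p | (∀ l ∈ A, p ∣ vf (c l) z.1 z.2) ∧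
    ∀ l ∈ B, ¬ p ∣ vf (c l) z.1 z.2}

private theorem empty_PatD (p : ℕ) {s D : ℕ} (c : Fin s → Fin (D + 1) → Fin (D + 1) → ℕ)
    (A : Finset (Fin s)) :
    PN_PatD p c A ∅ = SN p (fun l i j => if l ∈ A then c l i j else 0) := by
  unfold PN_PatD SN
  refine congrArg Finset.card (Finset.filter_congr fun z _ => ?_)
  constructor
  · rintro ⟨h, -⟩ l
    by_cases hl : l ∈ A
    · simp only [if_pos hl]
      exact h l hl
    · simp [if_neg hl]
  · intro h
    refine ⟨fun l hl => ?_, fun l hl => absurd hl (Finset.notMem_empty l)⟩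
    have h1 := h l
    simp only [if_pos hl] at h1
    exact h1

private theorem insert_PatD (p : ℕ) {s D : ℕ} (c : Fin s → Fin (D + 1) → Fin (D + 1) → ℕ)
    (A B : Finset (Fin s)) (b : Fin s) :
    PN_PatD p c A (insert b B) = PN_PatD p c A B - PN_PatD p c (insert b A) B := by
  have h : PN_PatD p c A B = PN_PatD p c (insert b A) B + PN_PatD p c A (insert b B) := by
    unfold PN_PatD
    rw [← Finset.card_filter_add_card_filter_not
      (s := {z ∈ range p ×ˢ range p | (∀ l ∈ A, p ∣ vf (c l) z.1 z.2) ∧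
        ∀ l ∈ B, ¬ p ∣ vf (c l) z.1 z.2})
      (fun z : ℕ × ℕ => p ∣ vf (c b) z.1 z.2), Finset.filter_filter, Finset.filter_filter]
    refine congrArg₂ (· + ·) (congrArg Finset.card (Finset.filter_congr fun z _ => ?_))
      (congrArg Finset.card (Finset.filter_congr fun z _ => ?_))
    · simp only [Finset.forall_mem_insert]
      tauto
    · simp only [Finset.forall_mem_insert]
      tauto
  omega

private theorem pn_def_PatD (H : CurveHyp) {s D n : ℕ} {p : (Fin n → ℕ) → ℕ}
    {c : Fin s → Fin (D + 1) → Fin (D + 1) → (Fin n → ℕ) → ℕ} (hp : DFun n p)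
    (hc : ∀ l i j, DFun n (c l i j)) (B : Finset (Fin s)) : ∀ A : Finset (Fin s),
    DFun n (fun v => if (p v).Prime then PN_PatD (p v) (fun l i j => c l i j v) A B else 0) := by
  induction B using Finset.induction_on with
  | empty =>
    intro A
    have hc' : ∀ (l : Fin s) (i j : Fin (D + 1)),
        DFun n (fun v => if l ∈ A then c l i j v else 0) := by
      intro l i j
      by_cases hl : l ∈ A
      · simp only [if_pos hl]
        exact hc l i j
      · simp only [if_neg hl]
        exact DFun.const 0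
    refine ECD.dfun_congr (sn_prime H (c := fun l i j v => if l ∈ A then c l i j v else 0)
      hp hc') fun v => ?_
    rw [empty_PatD]
  | insert b B _ ih =>
    intro A
    refine ECD.dfun_congr ((ih A).sub (ih (insert b A))) fun v => ?_
    rw [insert_PatD]
    split_ifs
    · rfl
    · rfl

theorem pat_def (H : CurveHyp) {s D n : ℕ} {p : (Fin n → ℕ) → ℕ}
    {c : Fin s → Fin (D + 1) → Fin (D + 1) → (Fin n → ℕ) → ℕ} (hp : DFun n p)
    (hc : ∀ l i j, DFun n (c l i j)) (B A : Finset (Fin s)) :
    DFun n (fun v => if (p v).Prime then #{z ∈ range (p v) ×ˢ range (p v) |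
      (∀ l ∈ A, p v ∣ vf (fun i j => c l i j v) z.1 z.2) ∧
      ∀ l ∈ B, ¬ p v ∣ vf (fun i j => c l i j v) z.1 z.2} else 0) := by
  refine ECD.dfun_congr (pn_def_PatD H hp hc B A) fun v => ?_
  unfold PN_PatD
  rfl

private theorem bool_PatD (p : ℕ) {s D : ℕ} (c : Fin s → Fin (D + 1) → Fin (D + 1) → ℕ)
    (φ : (Fin s → Prop) → Prop) :
    #{z ∈ range p ×ˢ range p | φ (fun l => p ∣ vf (c l) z.1 z.2)} =
      ∑ A ∈ (Finset.univ : Finset (Finset (Fin s))).filter (fun A => φ (fun l => l ∈ A)),
        PN_PatD p c A Aᶜ := by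
  rw [Finset.card_eq_sum_card_fiberwise (t := (Finset.univ : Finset (Finset (Fin s))).filter
    (fun A => φ (fun l => l ∈ A)))
    (f := fun z : ℕ × ℕ => (Finset.univ : Finset (Fin s)).filter
      fun l => p ∣ vf (c l) z.1 z.2)]
  · refine Finset.sum_congr rfl fun A hA => ?_
    unfold PN_PatD
    rw [Finset.filter_filter]
    refine congrArg Finset.card (Finset.filter_congr fun z _ => ?_)
    rw [Finset.mem_filter] at hA
    constructor
    · rintro ⟨-, rfl⟩
      refine ⟨fun l hl => ?_, fun l hl => ?_⟩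
      · exact (Finset.mem_filter.1 hl).2
      · rw [Finset.mem_compl, Finset.mem_filter] at hl
        exact fun h => hl ⟨Finset.mem_univ _, h⟩
    · rintro ⟨h1, h2⟩
      have h3 : ∀ l, l ∈ A ↔ p ∣ vf (c l) z.1 z.2 := by
        intro l
        refine ⟨h1 l, fun h => ?_⟩
        by_contra hl
        exact h2 l (Finset.mem_compl.2 hl) h
      refine ⟨?_, ?_⟩
      · have h4 : (fun l => p ∣ vf (c l) z.1 z.2) = fun l => l ∈ A :=
          funext fun l => propext (h3 l).symm
        rw [h4]
        exact hA.2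
      · ext l
        rw [Finset.mem_filter, h3 l]
        exact ⟨fun h => h.2, fun h => ⟨Finset.mem_univ _, h⟩⟩
  · intro z hz
    rw [Finset.mem_coe, Finset.mem_filter] at hz
    rw [Finset.mem_coe, Finset.mem_filter]
    refine ⟨Finset.mem_univ _, ?_⟩
    have h4 : (fun l => p ∣ vf (c l) z.1 z.2) = fun l => l ∈ (Finset.univ : Finset (Fin s)).filter
        fun l => p ∣ vf (c l) z.1 z.2 :=
      funext fun l => propext ⟨fun h => Finset.mem_filter.2 ⟨Finset.mem_univ _, h⟩,
        fun h => (Finset.mem_filter.1 h).2⟩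
    rw [← h4]
    exact hz.2

theorem bool_def (H : CurveHyp) {s D n : ℕ} {p : (Fin n → ℕ) → ℕ}
    {c : Fin s → Fin (D + 1) → Fin (D + 1) → (Fin n → ℕ) → ℕ} (hp : DFun n p)
    (hc : ∀ l i j, DFun n (c l i j)) (φ : (Fin s → Prop) → Prop) :
    DFun n (fun v => if (p v).Prime then #{z ∈ range (p v) ×ˢ range (p v) |
      φ (fun l => p v ∣ vf (fun i j => c l i j v) z.1 z.2)} else 0) := by
  have h1 := DFun.finSum ((Finset.univ : Finset (Finset (Fin s))).filter
    (fun A => φ (fun l => l ∈ A)))
    (f := fun A v => if (p v).Prime then PN_PatD (p v) (fun l i j => c l i j v) A Aᶜ else 0)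
    fun A => pn_def_PatD H hp hc Aᶜ A
  refine ECD.dfun_congr h1 fun v => ?_
  by_cases hv : (p v).Prime
  · simp only [if_pos hv]
    exact bool_PatD (p v) (fun l i j => c l i j v) φ
  · simp only [if_neg hv]
    rw [Finset.sum_const_zero]

end Pool.Agent.CvT
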