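import Pool.Agent.CvT.Pat
import Pool.Agent.CvT.PatD
import Pool.Agent.PRc.Delta

/-!
# Package CvT-Pla: numbers of points of decidable sets in the plane

Complete proof. `N p a` is the cardinality for prime `p` and `0` otherwise. `bool_form` gives
polynomials `T l` and `φ`, `coef_fam` gives `D` and coefficients `C l i j` (`PRF`). Let `p`, `a` be in the class and
`c l i j v` the value in `{0, …, p - 1}` of `C l i j` over `ZMod (p v)` at `a v`: `PRc.prf_dfun'` (`zv`). For
`x, y < p` the polynomial `T l` vanishes at `(x, y)` and `a v` over `ZMod (p v)` if and only if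
`p v ∣ vf (c l) x y`. So `N (p v) (a v)` is the function of `bool_def` (the pairs of numbers `< p` are the
vectors in `Fin 2 → ZMod p`: `ZMod.val`, `Nat.card_congr`).
-/

set_option autoImplicit false

namespace Pool.Agent.CvT

open Finset Polynomial Pool.Agent.Grz Pool.Agent.GAvg Pool.Agent.PTr Pool.Agent.MTr
  Pool.Agent.LPC Pool.Agent.ECD Pool.Agent.CvD Pool.Agent.PRc
open scoped Classical

/-- The number of the points of a decidable set in the plane over a prime field is definable. -/
theorem plane (H : CurveHyp) {ι : Type} [Finite ι] {R : FR (Fin 2 ⊕ ι)} (hR : PRD R) :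
    ∃ N : ℕ → (ι → ℕ) → ℕ, (∀ (n : ℕ) (p : (Fin n → ℕ) → ℕ) (a : ι → (Fin n → ℕ) → ℕ),
        DFun n p → (∀ i, DFun n (a i)) → DFun n (fun v => N (p v) (fun i => a i v))) ∧
      ∀ (p : ℕ) [Fact p.Prime] (a : ι → ℕ), N p a =
        Nat.card {z : Fin 2 → ZMod p // R (ZMod p) (Sum.elim z fun i => (a i : ZMod p))} := by
  have := Fintype.ofFinite ι
  obtain ⟨s, T, φ, hφ⟩ := bool_form hR
  obtain ⟨D, C, hC⟩ := coef_fam T
  refine ⟨fun p a => if p.Prime then #{z ∈ range p ×ˢ range p |
    φ (fun l => p ∣ vf (fun i j => zv (C l i j) p a) z.1 z.2)} else 0, ?_, ?_⟩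
  · intro n p a hp ha
    exact bool_def H hp (c := fun l i j v => zv (C l i j) (p v) (fun i => a i v))
      (fun l i j => prf_dfun' ((hC l).1 i j) hp ha) φ
  · intro p hp a
    have : NeZero p := ⟨hp.out.ne_zero⟩
    have hzv : ∀ l i j, ((zv (C l i j) p a : ℕ) : ZMod p) =
        C l i j (ZMod p) (fun i => (a i : ZMod p)) := by
      intro l i j
      unfold zv
      rw [dif_pos hp.out, ZMod.natCast_zmod_val]
    have key : ∀ z : Fin 2 → ZMod p, R (ZMod p) (Sum.elim z fun i => (a i : ZMod p)) ↔
        φ (fun l => p ∣ vf (fun i j => zv (C l i j) p a) (z 0).val (z 1).val) := by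
      intro z
      rw [hφ]
      have h1 : (fun l => MvPolynomial.aeval (Sum.elim z fun i => (a i : ZMod p)) (T l) = 0) =
          fun l => p ∣ vf (fun i j => zv (C l i j) p a) (z 0).val (z 1).val := by
        funext l
        rw [(hC l).2, ← ZMod.natCast_eq_zero_iff]
        unfold vf
        push_cast
        simp only [hzv, ZMod.natCast_zmod_val]
      rw [h1]
    show (if p.Prime then #{z ∈ range p ×ˢ range p |
      φ (fun l => p ∣ vf (fun i j => zv (C l i j) p a) z.1 z.2)} else 0) = _
    rw [if_pos hp.out, Nat.card_eq_fintype_card, Fintype.card_subtype]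
    symm
    refine Finset.card_bij (fun z _ => ((z 0).val, (z 1).val)) ?_ ?_ ?_
    · intro z hz
      rw [mem_filter] at hz
      rw [mem_filter, mem_product, mem_range, mem_range]
      exact ⟨⟨ZMod.val_lt _, ZMod.val_lt _⟩, (key z).1 hz.2⟩
    · intro z _ z' _ h
      have h0 := congrArg Prod.fst h
      have h1 := congrArg Prod.snd h
      funext i
      fin_cases i
      · exact ZMod.val_injective p h0
      · exact ZMod.val_injective p h1
    · rintro ⟨x, y⟩ hz
      rw [mem_filter, mem_product, mem_range, mem_range] at hz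
      have hx : ((x : ZMod p)).val = x := ZMod.val_cast_of_lt hz.1.1
      have hy : ((y : ZMod p)).val = y := ZMod.val_cast_of_lt hz.1.2
      refine ⟨![(x : ZMod p), (y : ZMod p)], ?_, ?_⟩
      · rw [mem_filter]
        refine ⟨mem_univ _, (key _).2 ?_⟩
        show φ (fun l => p ∣ vf (fun i j => zv (C l i j) p a) ((x : ZMod p)).val
          ((y : ZMod p)).val)
        rw [hx, hy]
        exact hz.2
      · show (((x : ZMod p)).val, ((y : ZMod p)).val) = (x, y)
        rw [hx, hy]

end Pool.Agent.CvT
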