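import Pool.Agent.CvT.Defs
import Pool.Agent.CvD.Bez

/-!
# Package CvT-SysP: systems without common divisor have few solutions

Complete proofs. `K[X][Y]` is a unique factorisation domain.

* `sys_few`: `B = 2 D B₀` with the bound `B₀` of `CvD.bez D`. Let no nonunit divide all `F_l` (`Bd D`). Then
  some `F_l ≠ 0` (otherwise every nonunit divides all of them), `F_l = P_1 ⋯ P_t` (and a unit) with
  irreducible `P_i`, `t ≤ 2 D` (each has degree at least `1` in `X` or `Y`; `CvD.dX_mul`,
  `CvD.nonunit_pos`). A common zero is a zero of some `P_i`. `P_i` does not divide some `F_j`, so `P_i` and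
  `F_j` are relatively prime (`P_i` irreducible) and have at most `B₀` common zeros.
* `sys_gcd`: if some `F_l ≠ 0` there are `G ≠ 0` and `F'_l` with `F_l = G F'_l`, such that no nonunit
  divides all `F'_l` (`G` a common divisor of maximal sum of degrees in `X` and `Y`, or
  `UniqueFactorizationMonoid.toNormalizedGCDMonoid` and `Finset.gcd`); all have `Bd D` (`CvD.bd_left`;
  `F'_l = 0` if `F_l = 0`).
-/

set_option autoImplicit false

namespace Pool.Agent.CvT

open Finset Polynomial Pool.Agent.CvD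
open scoped Polynomial.Bivariate

private theorem wt_mul_SysP {K : Type} [Field K] {F G : K[X][Y]} (hF : F ≠ 0) (hG : G ≠ 0) :
    dX (F * G) + (F * G).natDegree = (dX F + F.natDegree) + (dX G + G.natDegree) := by
  rw [dX_mul hF hG, natDegree_mul hF hG]
  ring

private theorem wt_le_SysP {K : Type} [Field K] {D : ℕ} {F : K[X][Y]} (hF : Bd D F) :
    dX F + F.natDegree ≤ 2 * D := by
  have h1 := dX_le.2 hF.2
  have h2 := hF.1
  omega

private theorem unit_zero_SysP {K : Type} [Field K] {F : K[X][Y]} (hF : IsUnit F) (x y : K) :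
    F.evalEval x y ≠ 0 := by
  obtain ⟨a, ha, rfl⟩ := (unit_iff F).1 hF
  rw [evalEval_C, eval_C]
  exact ha

theorem sys_few (s D : ℕ) : ∃ B : ℕ, ∀ (K : Type) [Field K] (F : Fin s → K[X][Y]),
    (∀ l, Bd D (F l)) → (∀ G : K[X][Y], (∀ l, G ∣ F l) → IsUnit G) → ∀ S : Finset (K × K),
      (∀ z ∈ S, ∀ l, (F l).evalEval z.1 z.2 = 0) → #S ≤ B := by
  classical
  obtain ⟨B₀, hB₀⟩ := bez D
  refine ⟨2 * D * B₀, ?_⟩
  intro K _ F hF hG S hS
  -- some polynomial is not zero
  obtain ⟨l₀, hl₀⟩ : ∃ l, F l ≠ 0 := by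
    by_contra hcon
    push Not at hcon
    have h1 : IsUnit (X : K[X][Y]) := hG X fun l => by rw [hcon l]; exact dvd_zero _
    exact not_isUnit_X h1
  have key : ∀ (n : ℕ) (P : K[X][Y]), P ≠ 0 → Bd D P → dX P + P.natDegree ≤ n →
      ∀ S : Finset (K × K), (∀ z ∈ S, (∀ l, (F l).evalEval z.1 z.2 = 0) ∧
        P.evalEval z.1 z.2 = 0) → #S ≤ n * B₀ := by
    intro n
    induction n with
    | zero =>
      intro P hP hPD hn S hS
      have hu : IsUnit P := by
        by_contra hu
        have := nonunit_pos hP hu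
        omega
      rw [Finset.card_eq_zero.2]
      · exact Nat.zero_le _
      · rw [Finset.eq_empty_iff_forall_notMem]
        intro z hz
        exact unit_zero_SysP hu _ _ (hS z hz).2
    | succ n ih =>
      intro P hP hPD hn S hS
      by_cases hu : IsUnit P
      · rw [Finset.card_eq_zero.2]
        · exact Nat.zero_le _
        · rw [Finset.eq_empty_iff_forall_notMem]
          intro z hz
          exact unit_zero_SysP hu _ _ (hS z hz).2
      obtain ⟨R, hR, Q, hQ⟩ := WfDvdMonoid.exists_irreducible_factor hu hP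
      have hQ0 : Q ≠ 0 := by
        rintro rfl
        rw [mul_zero] at hQ
        exact hP hQ
      have hRD : Bd D R := bd_left hQ.symm hP hPD
      have hQD : Bd D Q := bd_left (by rw [hQ, mul_comm]) hP hPD
      have hw := wt_mul_SysP hR.ne_zero hQ0
      rw [← hQ] at hw
      have hpos := nonunit_pos hR.ne_zero hR.not_isUnit
      obtain ⟨j, hj⟩ : ∃ j, ¬ R ∣ F j := by
        by_contra hcon
        push Not at hcon
        exact hR.not_isUnit (hG R hcon)
      have h1 : #{z ∈ S | R.evalEval z.1 z.2 = 0} ≤ B₀ := by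
        refine hB₀ K R (F j) hRD (hF j) (hR.isRelPrime_iff_not_dvd.2 hj) _ ?_
        intro z hz
        obtain ⟨hz1, hz2⟩ := Finset.mem_filter.1 hz
        exact ⟨hz2, (hS z hz1).1 j⟩
      have h2 : #{z ∈ S | ¬ R.evalEval z.1 z.2 = 0} ≤ n * B₀ := by
        refine ih Q hQ0 hQD (by omega) _ ?_
        intro z hz
        obtain ⟨hz1, hz2⟩ := Finset.mem_filter.1 hz
        refine ⟨(hS z hz1).1, ?_⟩
        have h3 := (hS z hz1).2
        rw [hQ, evalEval_mul] at h3
        exact (mul_eq_zero.1 h3).resolve_left hz2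
      have h3 := Finset.card_filter_add_card_filter_not (s := S)
        (fun z : K × K => R.evalEval z.1 z.2 = 0)
      calc #S = #{z ∈ S | R.evalEval z.1 z.2 = 0} + #{z ∈ S | ¬ R.evalEval z.1 z.2 = 0} :=
            h3.symm
        _ ≤ B₀ + n * B₀ := add_le_add h1 h2
        _ = (n + 1) * B₀ := by ring
  exact key (2 * D) (F l₀) hl₀ (hF l₀) (wt_le_SysP (hF l₀)) S fun z hz => ⟨hS z hz, hS z hz l₀⟩

theorem sys_gcd {s D : ℕ} {K : Type} [Field K] {F : Fin s → K[X][Y]} (hF : ∀ l, Bd D (F l))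
    (h0 : ∃ l, F l ≠ 0) : ∃ (G : K[X][Y]) (F' : Fin s → K[X][Y]), Bd D G ∧ (∀ l, Bd D (F' l)) ∧
      (∀ l, G * F' l = F l) ∧ ∀ G' : K[X][Y], (∀ l, G' ∣ F' l) → IsUnit G' := by
  classical
  obtain ⟨l₀, hl₀⟩ := h0
  have hne : ∀ {G : K[X][Y]}, (∀ l, G ∣ F l) → G ≠ 0 := by
    rintro G hG rfl
    exact hl₀ (zero_dvd_iff.1 (hG l₀))
  have hle : ∀ {G : K[X][Y]}, (∀ l, G ∣ F l) → dX G + G.natDegree ≤ 2 * D := by
    intro G hG
    obtain ⟨H, hH⟩ := hG l₀
    exact wt_le_SysP (bd_left hH.symm hl₀ (hF l₀))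
  -- a common divisor of maximal weight
  let p : ℕ → Prop := fun n => ∃ G : K[X][Y], (∀ l, G ∣ F l) ∧ dX G + G.natDegree = n
  have hp1 : p (dX (1 : K[X][Y]) + (1 : K[X][Y]).natDegree) := ⟨1, fun l => one_dvd _, rfl⟩
  have hp2 := Nat.findGreatest_spec (P := p) (hle fun l => one_dvd _) hp1
  obtain ⟨G, hG, hGn⟩ := hp2
  have hG0 : G ≠ 0 := hne hG
  choose F' hF' using hG
  refine ⟨G, F', ?_, fun l => ?_, fun l => (hF' l).symm, fun G' hG' => ?_⟩
  · exact bd_left (hF' l₀).symm hl₀ (hF l₀)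
  · by_cases hl : F l = 0
    · have h1 : F' l = 0 := by
        have h2 := hF' l
        rw [hl] at h2
        exact (mul_eq_zero.1 h2.symm).resolve_left hG0
      rw [h1]
      exact ⟨by rw [natDegree_zero]; exact Nat.zero_le _, fun j => by
        rw [coeff_zero, natDegree_zero]; exact Nat.zero_le _⟩
    · exact bd_left (by rw [mul_comm]; exact (hF' l).symm) hl (hF l)
  · by_contra hu
    have h1 : ∀ l, G * G' ∣ F l := fun l => by
      rw [hF' l]
      exact mul_dvd_mul_left G (hG' l)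
    have hG'0 : G' ≠ 0 := right_ne_zero_of_mul (hne h1)
    have h2 := wt_mul_SysP hG0 hG'0
    have h3 := nonunit_pos hG'0 hu
    have h4 : dX (G * G') + (G * G').natDegree ≤ Nat.findGreatest p (2 * D) :=
      Nat.le_findGreatest (hle h1) ⟨G * G', h1, rfl⟩
    omega

end Pool.Agent.CvT
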